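import Mathlib

/-!
# Differences of a large multiplicative subgroup of a finite field

If `K` is a finite field with `q` elements and `G` is a subgroup of `Kˣ` with `|G| ^ 4 ≥ q ^ 3`, then
every element of `K` is a difference of two elements of `G`. The proof uses additive characters.
-/

set_option autoImplicit false
set_option linter.unusedSectionVars false

namespace Pool.Agent.Q114.HF

open Finset

section

variable {K : Type} [Field K] [Fintype K] [DecidableEq K] (G : Subgroup Kˣ) [Fintype G]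
  (ψ : AddChar K ℂ)

/-- the character sum over `t G` -/
noncomputable def S (t : K) : ℂ := ∑ g : G, ψ (t * ((g : Kˣ) : K))

theorem S_mul (t : K) (g : G) : S G ψ (t * ((g : Kˣ) : K)) = S G ψ t := by
  unfold S
  refine Fintype.sum_equiv (Equiv.mulLeft g) _ _ fun h => ?_
  rw [Equiv.coe_mulLeft, Subgroup.coe_mul, Units.val_mul, mul_assoc]

theorem S_zero : S G ψ 0 = Fintype.card G := by
  unfold S
  simp

theorem norm_S (t : K) : ((‖S G ψ t‖ ^ 2 : ℝ) : ℂ) = S G ψ t * S G ψ (-t) := by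
  have h : S G ψ (-t) = starRingEnd ℂ (S G ψ t) := by
    unfold S
    rw [map_sum]
    refine Finset.sum_congr rfl fun g _ => ?_
    rw [neg_mul, AddChar.map_neg_eq_conj]
  rw [h, Complex.mul_conj, Complex.normSq_eq_norm_sq]

theorem sum_norm_S (hψ : ψ.IsPrimitive) :
    ∑ t : K, ‖S G ψ t‖ ^ 2 = (Fintype.card K : ℝ) * Fintype.card G := by
  have h : ((∑ t : K, ‖S G ψ t‖ ^ 2 : ℝ) : ℂ) = (Fintype.card K : ℂ) * Fintype.card G := by
    push_cast
    have h1 : ∀ t : K, ((‖S G ψ t‖ : ℂ)) ^ 2 =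
        ∑ g : G, ∑ h : G, ψ (t * (((g : Kˣ) : K) - ((h : Kˣ) : K))) := by
      intro t
      have h2 := norm_S G ψ t
      push_cast at h2
      rw [h2]
      unfold S
      rw [Finset.sum_mul_sum]
      refine Finset.sum_congr rfl fun g _ => Finset.sum_congr rfl fun h _ => ?_
      rw [← AddChar.map_add_eq_mul]
      congr 1
      ring
    simp_rw [h1]
    rw [Finset.sum_comm]
    have h3 : ∀ g : G, ∑ t : K, ∑ h : G, ψ (t * (((g : Kˣ) : K) - ((h : Kˣ) : K))) =
        (Fintype.card K : ℂ) := by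
      intro g
      rw [Finset.sum_comm]
      rw [Finset.sum_eq_single g]
      · rw [AddChar.sum_mulShift _ hψ, if_pos (sub_self _)]
      · intro h _ hne
        rw [AddChar.sum_mulShift _ hψ, if_neg]
        · simp
        · intro h0
          apply hne
          apply Subtype.ext
          apply Units.ext
          exact (sub_eq_zero.1 h0).symm
      · intro h
        exact absurd (Finset.mem_univ _) h
    simp_rw [h3]
    simp [mul_comm]
  exact_mod_cast h

theorem norm_S_le (hψ : ψ.IsPrimitive) {t : K} (ht : t ≠ 0) :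
    ‖S G ψ t‖ ^ 2 ≤ (Fintype.card K : ℝ) := by
  have hpos : (0 : ℝ) < Fintype.card G := by exact_mod_cast Fintype.card_pos
  have h1 : (Fintype.card G : ℝ) * ‖S G ψ t‖ ^ 2 ≤ ∑ t : K, ‖S G ψ t‖ ^ 2 := by
    have h2 : (Fintype.card G : ℝ) * ‖S G ψ t‖ ^ 2 =
        ∑ g : G, ‖S G ψ (t * ((g : Kˣ) : K))‖ ^ 2 := by
      simp_rw [S_mul]
      simp
    rw [h2]
    have hinj : Function.Injective fun g : G => t * ((g : Kˣ) : K) := by
      intro g h hgh
      apply Subtype.ext
      apply Units.ext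
      exact mul_left_cancel₀ ht hgh
    have h3 : ∑ g : G, ‖S G ψ (t * ((g : Kˣ) : K))‖ ^ 2 =
        ∑ x ∈ Finset.univ.map ⟨_, hinj⟩, ‖S G ψ x‖ ^ 2 := by
      rw [Finset.sum_map]
      rfl
    rw [h3]
    exact Finset.sum_le_sum_of_subset_of_nonneg (Finset.subset_univ _) fun _ _ _ => by positivity
  rw [sum_norm_S G ψ hψ] at h1
  have h2 : (Fintype.card G : ℝ) * ‖S G ψ t‖ ^ 2 ≤ Fintype.card G * Fintype.card K := by linarith
  exact le_of_mul_le_mul_left h2 hpos

theorem triple_sum (hψ : ψ.IsPrimitive) (z : K)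
    (hz : ∀ g ∈ G, ∀ h ∈ G, z ≠ (g : K) - (h : K)) :
    ∑ t : K, ((‖S G ψ t‖ ^ 2 : ℝ) : ℂ) * S G ψ (-(t * z)) = 0 := by
  have h1 : ∀ t : K, ((‖S G ψ t‖ ^ 2 : ℝ) : ℂ) * S G ψ (-(t * z)) =
      ∑ g : G, ∑ h : G, ∑ l : G, ψ (t * (((g : Kˣ) : K) - ((h : Kˣ) : K) - z * ((l : Kˣ) : K))) := by
    intro t
    rw [norm_S]
    unfold S
    rw [Finset.sum_mul_sum, Finset.sum_mul]
    refine Finset.sum_congr rfl fun g _ => ?_
    rw [Finset.sum_mul_sum]
    refine Finset.sum_congr rfl fun h _ => Finset.sum_congr rfl fun l _ => ?_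
    rw [← AddChar.map_add_eq_mul, ← AddChar.map_add_eq_mul]
    congr 1
    ring
  simp_rw [h1]
  rw [Finset.sum_comm]
  refine Finset.sum_eq_zero fun g _ => ?_
  rw [Finset.sum_comm]
  refine Finset.sum_eq_zero fun h _ => ?_
  rw [Finset.sum_comm]
  refine Finset.sum_eq_zero fun l _ => ?_
  rw [AddChar.sum_mulShift _ hψ, if_neg]
  · simp
  · intro h0
    apply hz (g * l⁻¹ : G) (g * l⁻¹ : G).2 (h * l⁻¹ : G) (h * l⁻¹ : G).2
    have hl : (((l : Kˣ) : K)) ≠ 0 := (l : Kˣ).ne_zero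
    have h2 : z * ((l : Kˣ) : K) = ((g : Kˣ) : K) - ((h : Kˣ) : K) := (sub_eq_zero.1 h0).symm
    have h3 : z = (((g : Kˣ) : K) - ((h : Kˣ) : K)) * ((l : Kˣ) : K)⁻¹ := by
      rw [← h2]
      field_simp
    rw [h3]
    simp only [Subgroup.coe_mul, Subgroup.coe_inv, Units.val_mul, Units.val_inv_eq_inv_val]
    ring

end

theorem finite_diff {K : Type} [Field K] [Finite K] (G : Subgroup Kˣ)
    (hG : Nat.card K ^ 3 ≤ Nat.card G ^ 4) (z : K) :
    ∃ g ∈ G, ∃ h ∈ G, z = (g : K) - (h : K) := by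
  classical
  have : Fintype K := Fintype.ofFinite K
  have : Fintype G := Fintype.ofFinite G
  by_cases hz0 : z = 0
  · exact ⟨1, G.one_mem, 1, G.one_mem, by rw [hz0, sub_self]⟩
  by_contra hcon
  push Not at hcon
  obtain ⟨ψ, hψ1⟩ := AddChar.exists_apply_ne_zero.2 (one_ne_zero : (1 : K) ≠ 0)
  have hψ : ψ.IsPrimitive := by
    apply AddChar.IsPrimitive.of_ne_one
    rintro rfl
    exact hψ1 rfl
  have h1 := triple_sum G ψ hψ z hcon
  rw [← Finset.add_sum_erase _ _ (Finset.mem_univ (0 : K))] at h1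
  rw [S_zero, zero_mul, neg_zero, S_zero] at h1
  have h2 : (Fintype.card G : ℝ) ^ 3 ≤
      ∑ t ∈ Finset.univ.erase (0 : K), ‖S G ψ t‖ ^ 2 * ‖S G ψ (-(t * z))‖ := by
    have h3 := congrArg norm (eq_neg_of_add_eq_zero_left h1)
    rw [norm_neg] at h3
    have h4 : ‖((‖(Fintype.card G : ℂ)‖ ^ 2 : ℝ) : ℂ) * (Fintype.card G : ℂ)‖ =
        (Fintype.card G : ℝ) ^ 3 := by
      rw [norm_mul, Complex.norm_real, Complex.norm_natCast, Real.norm_eq_abs, abs_of_nonneg
        (by positivity)]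
      ring
    rw [h4] at h3
    rw [h3]
    refine (norm_sum_le _ _).trans (le_of_eq ?_)
    refine Finset.sum_congr rfl fun t _ => ?_
    rw [norm_mul, Complex.norm_real, Real.norm_eq_abs, abs_of_nonneg (by positivity)]
  have hq : (0 : ℝ) ≤ Fintype.card K := by positivity
  have h3 : ∑ t ∈ Finset.univ.erase (0 : K), ‖S G ψ t‖ ^ 2 * ‖S G ψ (-(t * z))‖ ≤
      ∑ t ∈ Finset.univ.erase (0 : K), ‖S G ψ t‖ ^ 2 * Real.sqrt (Fintype.card K) := by
    refine Finset.sum_le_sum fun t ht => ?_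
    have ht0 : t ≠ 0 := Finset.ne_of_mem_erase ht
    refine mul_le_mul_of_nonneg_left ?_ (by positivity)
    apply Real.le_sqrt_of_sq_le
    exact norm_S_le G ψ hψ (neg_ne_zero.2 (mul_ne_zero ht0 hz0))
  have h4 : ∑ t ∈ Finset.univ.erase (0 : K), ‖S G ψ t‖ ^ 2 =
      (Fintype.card K : ℝ) * Fintype.card G - (Fintype.card G : ℝ) ^ 2 := by
    rw [← sum_norm_S G ψ hψ, ← Finset.add_sum_erase _ _ (Finset.mem_univ (0 : K)), S_zero,
      Complex.norm_natCast]
    ring
  rw [← Finset.sum_mul, h4] at h3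
  have hGpos : (0 : ℝ) < Fintype.card G := by exact_mod_cast Fintype.card_pos
  have hsq : Real.sqrt (Fintype.card K) > 0 := by
    apply Real.sqrt_pos.2
    exact_mod_cast Fintype.card_pos
  have h5 : (Fintype.card G : ℝ) ^ 3 < (Fintype.card K : ℝ) * Fintype.card G *
      Real.sqrt (Fintype.card K) := by
    refine lt_of_le_of_lt (h2.trans h3) ?_
    apply mul_lt_mul_of_pos_right _ hsq
    nlinarith
  have h6 : (Fintype.card G : ℝ) ^ 2 < (Fintype.card K : ℝ) * Real.sqrt (Fintype.card K) := by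
    have h7 : (Fintype.card G : ℝ) * (Fintype.card G : ℝ) ^ 2 <
        (Fintype.card G : ℝ) * ((Fintype.card K : ℝ) * Real.sqrt (Fintype.card K)) := by
      nlinarith
    exact lt_of_mul_lt_mul_left h7 hGpos.le
  have h7 : (Fintype.card G : ℝ) ^ 4 < (Fintype.card K : ℝ) ^ 3 := by
    have h8 : ((Fintype.card G : ℝ) ^ 2) ^ 2 <
        ((Fintype.card K : ℝ) * Real.sqrt (Fintype.card K)) ^ 2 :=
      pow_lt_pow_left₀ h6 (by positivity) (by norm_num)
    rw [mul_pow, Real.sq_sqrt hq] at h8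
    nlinarith
  have h8 : Fintype.card G ^ 4 < Fintype.card K ^ 3 := by exact_mod_cast h7
  rw [Nat.card_eq_fintype_card, Nat.card_eq_fintype_card] at hG
  omega

end Pool.Agent.Q114.HF
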