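import Mathlib

/-!
# Differences of a multiplicative subgroup of finite index in an infinite field

If `K` is an infinite field and `G` has finite index in `Kˣ` then every element of `K` is a
difference of two elements of `G`. The proof uses the Hales-Jewett theorem.
-/

set_option autoImplicit false

namespace Pool.Agent.Q114.HF

open Finset

theorem exists_weights {K : Type} [Field K] [Infinite K] {ι : Type} [Fintype ι] [DecidableEq ι]
    (t : Finset ι) : ∃ w : ι → K, ∀ s ⊆ t, s.Nonempty → ∑ i ∈ s, w i ≠ 0 := by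
  classical
  induction t using Finset.induction_on with
  | empty =>
    refine ⟨fun _ => 0, fun s hs hne => ?_⟩
    exact absurd (Finset.subset_empty.1 hs) hne.ne_empty
  | insert a t ha ih =>
    obtain ⟨w, hw⟩ := ih
    obtain ⟨x, hx⟩ := Infinite.exists_notMem_finset
      (t.powerset.image fun s => -∑ i ∈ s, w i)
    refine ⟨Function.update w a x, fun s hs hne h0 => ?_⟩
    by_cases has : a ∈ s
    · have h1 : s.erase a ⊆ t := by
        intro i hi
        rw [Finset.mem_erase] at hi
        exact (Finset.mem_insert.1 (hs hi.2)).resolve_left hi.1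
      apply hx
      rw [Finset.mem_image]
      refine ⟨s.erase a, Finset.mem_powerset.2 h1, ?_⟩
      rw [← Finset.add_sum_erase s _ has, Function.update_self] at h0
      have h2 : ∑ i ∈ s.erase a, Function.update w a x i = ∑ i ∈ s.erase a, w i := by
        refine Finset.sum_congr rfl fun i hi => ?_
        rw [Function.update_of_ne (Finset.ne_of_mem_erase hi)]
      rw [h2] at h0
      exact (eq_neg_of_add_eq_zero_left h0).symm
    · have h1 : s ⊆ t := by
        intro i hi
        refine (Finset.mem_insert.1 (hs hi)).resolve_left ?_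
        rintro rfl
        exact has hi
      apply hw s h1 hne
      rw [← h0]
      refine Finset.sum_congr rfl fun i hi => ?_
      rw [Function.update_of_ne]
      rintro rfl
      exact has hi

theorem infinite_diff {K : Type} [Field K] [Infinite K] (G : Subgroup Kˣ) {n : ℕ} (f : K → Fin n)
    (hf : ∀ x y : K, f x = f y ↔ ∃ g ∈ G, y = x * (g : K)) (z : K) :
    ∃ g ∈ G, ∃ h ∈ G, z = (g : K) - (h : K) := by
  classical
  have hf0 : ∀ x : K, f x = f 0 → x = 0 := by
    intro x hx
    obtain ⟨g, -, hg⟩ := (hf x 0).1 hx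
    rcases mul_eq_zero.1 hg.symm with h | h
    · exact h
    · exact absurd h g.ne_zero
  by_cases hz : z = 0
  · exact ⟨1, G.one_mem, 1, G.one_mem, by rw [hz, sub_self]⟩
  -- representatives of the cosets
  let ρ : Fin n → K := fun c => if h : ∃ x : K, x ≠ 0 ∧ f x = c then h.choose else 1
  have hρ0 : ∀ c, ρ c ≠ 0 := by
    intro c
    by_cases h : ∃ x : K, x ≠ 0 ∧ f x = c
    · simp only [ρ, dif_pos h]
      exact h.choose_spec.1
    · simp only [ρ, dif_neg h]
      exact one_ne_zero
  have hρ : ∀ x : K, x ≠ 0 → f (ρ (f x)) = f x := by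
    intro x hx
    have h : ∃ y : K, y ≠ 0 ∧ f y = f x := ⟨x, hx, rfl⟩
    simp only [ρ, dif_pos h]
    exact h.choose_spec.2
  let s : Option (Fin n) → K := fun a => a.elim 0 fun c => z * ρ c
  obtain ⟨ι, _, hι⟩ := Combinatorics.Line.exists_mono_in_high_dimension (Option (Fin n)) (Fin n)
  obtain ⟨w, hw⟩ := exists_weights (K := K) (Finset.univ : Finset ι)
  obtain ⟨l, c₀, hl⟩ := hι fun v => f (∑ i, w i * s (v i))
  let t : Finset ι := Finset.univ.filter fun i => l.idxFun i = none
  let d : K := ∑ i ∈ t, w i
  let b : K := ∑ i ∈ tᶜ, w i * s ((l.idxFun i).getD none)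
  have hd : d ≠ 0 := by
    refine hw t (Finset.subset_univ _) ?_
    obtain ⟨i, hi⟩ := l.proper
    exact ⟨i, Finset.mem_filter.2 ⟨Finset.mem_univ _, hi⟩⟩
  have hline : ∀ a, f (b + d * s a) = c₀ := by
    intro a
    rw [← hl a]
    congr 1
    rw [← Finset.sum_add_sum_compl t, add_comm]
    congr 1
    · rw [Finset.sum_mul]
      refine Finset.sum_congr rfl fun i hi => ?_
      rw [Combinatorics.Line.coe_apply, (Finset.mem_filter.1 hi).2, Option.getD_none]
    · refine Finset.sum_congr rfl fun i hi => ?_
      rw [Combinatorics.Line.coe_apply]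
      have h1 : l.idxFun i ≠ none := by
        intro h1
        rw [Finset.mem_compl] at hi
        exact hi (Finset.mem_filter.2 ⟨Finset.mem_univ _, h1⟩)
      obtain ⟨y, hy⟩ := Option.ne_none_iff_exists'.1 h1
      rw [hy, Option.getD_some, Option.getD_some]
  have hb1 : f b = c₀ := by
    have h := hline none
    simpa [s] using h
  have hb0 : b ≠ 0 := by
    intro h0
    have h := hline (some c₀)
    rw [← hb1, h0] at h
    have h1 := hf0 _ h
    simp only [zero_add, s, Option.elim_some] at h1
    exact mul_ne_zero hd (mul_ne_zero hz (hρ0 _)) h1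
  have hbd : b / d ≠ 0 := div_ne_zero hb0 hd
  obtain ⟨g, hg, hg1⟩ := (hf _ _).1 (hρ _ hbd).symm
  have h := hline (some (f (b / d)))
  rw [← hb1] at h
  obtain ⟨g', hg', hg1'⟩ := (hf _ _).1 h.symm
  refine ⟨g' * g⁻¹, G.mul_mem hg' (G.inv_mem hg), g⁻¹, G.inv_mem hg, ?_⟩
  simp only [s, Option.elim_some] at hg1'
  rw [hg1] at hg1'
  have hgne : (g : K) ≠ 0 := g.ne_zero
  have h2 : 1 + z * (g : K) = (g' : K) := by
    have h3 : b * (1 + z * (g : K)) = b * (g' : K) := by
      rw [← hg1']
      field_simp
    exact mul_left_cancel₀ hb0 h3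
  rw [Units.val_mul, Units.val_inv_eq_inv_val, ← h2]
  field_simp
  ring

end Pool.Agent.Q114.HF
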