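import Mathlib

/-!
# Triples of elements of an abelian group up to scaling and permutation

Most sets of classes of triples are rich.
-/

set_option autoImplicit false

namespace Pool.Agent.Q114.HF

open Finset

section Union

variable {Ω : Type} [Fintype Ω] [DecidableEq Ω]

theorem step (P : Finset Ω → Prop) [DecidablePred P] (p q : Ω)
    (hP : ∀ N : Finset Ω, P N ↔ P (N ∪ {p, q})) :
    4 * (univ.filter fun N : Finset Ω => P N ∧ ¬ (p ∈ N ∧ q ∈ N)).card ≤
      3 * (univ.filter fun N : Finset Ω => P N).card := by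
  classical
  have h1 : (univ.filter fun N : Finset Ω => P N).card =
      (univ.filter fun N : Finset Ω => P N ∧ (p ∈ N ∧ q ∈ N)).card +
      (univ.filter fun N : Finset Ω => P N ∧ ¬ (p ∈ N ∧ q ∈ N)).card := by
    rw [← Finset.card_filter_add_card_filter_not (s := univ.filter fun N : Finset Ω => P N)
      (fun N => p ∈ N ∧ q ∈ N), Finset.filter_filter, Finset.filter_filter]
  have h2 : (univ.filter fun N : Finset Ω => P N).card ≤
      4 * (univ.filter fun N : Finset Ω => P N ∧ (p ∈ N ∧ q ∈ N)).card := by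
    have h3 : ((univ.filter fun N : Finset Ω => P N).image fun N => N ∪ {p, q}) ⊆
        univ.filter fun N : Finset Ω => P N ∧ (p ∈ N ∧ q ∈ N) := by
      intro M hM
      rw [Finset.mem_image] at hM
      obtain ⟨N, hN, rfl⟩ := hM
      rw [Finset.mem_filter] at hN ⊢
      refine ⟨Finset.mem_univ _, (hP N).1 hN.2, ?_, ?_⟩ <;> simp
    have h4 : (univ.filter fun N : Finset Ω => P N).card ≤
        4 * ((univ.filter fun N : Finset Ω => P N).image fun N => N ∪ {p, q}).card := by
      apply Finset.card_le_mul_card_image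
      intro M _
      have h5 : ((univ.filter fun N : Finset Ω => P N).filter fun N => N ∪ {p, q} = M) ⊆
          (({p, q} : Finset Ω).powerset.image fun T => M \ T) := by
        intro N hN
        rw [Finset.mem_filter] at hN
        rw [Finset.mem_image]
        refine ⟨{p, q} \ N, Finset.mem_powerset.2 Finset.sdiff_subset, ?_⟩
        rw [← hN.2]
        ext x
        simp only [Finset.mem_sdiff, Finset.mem_union]
        tauto
      refine (Finset.card_le_card h5).trans (Finset.card_image_le.trans ?_)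
      rw [Finset.card_powerset]
      have h6 : ({p, q} : Finset Ω).card ≤ 2 := Finset.card_le_two
      calc 2 ^ ({p, q} : Finset Ω).card ≤ 2 ^ 2 := Nat.pow_le_pow_right (by norm_num) h6
        _ = 4 := by norm_num
    exact h4.trans (Nat.mul_le_mul_left 4 (Finset.card_le_card h3))
  omega

theorem iterate {ι : Type} [DecidableEq ι] (a b : ι → Ω) (k : ℕ) (I : Finset ι)
    (ha : ∀ ω, (I.filter fun i => a i = ω).card ≤ 6) (hb : ∀ ω, (I.filter fun i => b i = ω).card ≤ 6)
    (hk : 24 * k ≤ I.card) :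
    4 ^ k * (univ.filter fun N : Finset Ω => ∀ i ∈ I, ¬ (a i ∈ N ∧ b i ∈ N)).card ≤
      3 ^ k * 2 ^ Fintype.card Ω := by
  classical
  induction k generalizing I with
  | zero =>
    rw [pow_zero, one_mul, pow_zero, one_mul]
    refine (Finset.card_le_univ _).trans ?_
    rw [Fintype.card_finset]
  | succ k ih =>
    have hne : I.Nonempty := by
      rw [← Finset.card_pos]
      omega
    obtain ⟨i₀, hi₀⟩ := hne
    set p := a i₀ with hp
    set q := b i₀ with hq
    let I' := I.filter fun i => a i ≠ p ∧ a i ≠ q ∧ b i ≠ p ∧ b i ≠ q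
    have hI' : I.card ≤ I'.card + 24 := by
      have h1 : I ⊆ I' ∪ ((I.filter fun i => a i = p) ∪ (I.filter fun i => a i = q) ∪
          ((I.filter fun i => b i = p) ∪ (I.filter fun i => b i = q))) := by
        intro i hi
        simp only [I', Finset.mem_union, Finset.mem_filter]
        tauto
      have h2 := Finset.card_le_card h1
      have h3 := Finset.card_union_le I' ((I.filter fun i => a i = p) ∪ (I.filter fun i => a i = q) ∪
          ((I.filter fun i => b i = p) ∪ (I.filter fun i => b i = q)))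
      have h4 := Finset.card_union_le ((I.filter fun i => a i = p) ∪ (I.filter fun i => a i = q))
        ((I.filter fun i => b i = p) ∪ (I.filter fun i => b i = q))
      have h5 := Finset.card_union_le (I.filter fun i => a i = p) (I.filter fun i => a i = q)
      have h6 := Finset.card_union_le (I.filter fun i => b i = p) (I.filter fun i => b i = q)
      have h7 := ha p
      have h8 := ha q
      have h9 := hb p
      have h10 := hb q
      omega
    have ih' := ih I' (fun ω => (Finset.card_le_card (Finset.filter_subset_filter _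
      (Finset.filter_subset _ _))).trans (ha ω)) (fun ω => (Finset.card_le_card
      (Finset.filter_subset_filter _ (Finset.filter_subset _ _))).trans (hb ω)) (by omega)
    have hst := step (fun N : Finset Ω => ∀ i ∈ I', ¬ (a i ∈ N ∧ b i ∈ N)) p q (by
      intro N
      apply forall₂_congr
      intro i hi
      have h1 := (Finset.mem_filter.1 hi).2
      simp only [Finset.mem_union, Finset.mem_insert, Finset.mem_singleton, h1.1, h1.2.1, h1.2.2.1,
        h1.2.2.2, or_false])
    have hsub : (univ.filter fun N : Finset Ω => ∀ i ∈ I, ¬ (a i ∈ N ∧ b i ∈ N)).card ≤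
        (univ.filter fun N : Finset Ω => (∀ i ∈ I', ¬ (a i ∈ N ∧ b i ∈ N)) ∧
          ¬ (p ∈ N ∧ q ∈ N)).card := by
      apply Finset.card_le_card
      intro N hN
      rw [Finset.mem_filter] at hN ⊢
      exact ⟨hN.1, fun i hi => hN.2 i (Finset.mem_filter.1 hi).1, hN.2 i₀ hi₀⟩
    calc 4 ^ (k + 1) * (univ.filter fun N : Finset Ω => ∀ i ∈ I, ¬ (a i ∈ N ∧ b i ∈ N)).card
        ≤ 4 ^ (k + 1) * (univ.filter fun N : Finset Ω => (∀ i ∈ I', ¬ (a i ∈ N ∧ b i ∈ N)) ∧
          ¬ (p ∈ N ∧ q ∈ N)).card := Nat.mul_le_mul_left _ hsub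
      _ = 4 ^ k * (4 * (univ.filter fun N : Finset Ω => (∀ i ∈ I', ¬ (a i ∈ N ∧ b i ∈ N)) ∧
          ¬ (p ∈ N ∧ q ∈ N)).card) := by ring
      _ ≤ 4 ^ k * (3 * (univ.filter fun N : Finset Ω =>
          ∀ i ∈ I', ¬ (a i ∈ N ∧ b i ∈ N)).card) := Nat.mul_le_mul_left _ hst
      _ = 3 * (4 ^ k * (univ.filter fun N : Finset Ω =>
          ∀ i ∈ I', ¬ (a i ∈ N ∧ b i ∈ N)).card) := by ring
      _ ≤ 3 * (3 ^ k * 2 ^ Fintype.card Ω) := Nat.mul_le_mul_left _ ih'
      _ = 3 ^ (k + 1) * 2 ^ Fintype.card Ω := by ring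

end Union

section Classes

variable (A : Type) [CommGroup A]

/-- triples up to scaling and permutation -/
def tripleSetoid : Setoid (Fin 3 → A) where
  r s t := ∃ (g : A) (σ : Equiv.Perm (Fin 3)), ∀ i, t i = g * s (σ i)
  iseqv :=
    { refl := fun s => ⟨1, Equiv.refl _, fun i => by simp⟩
      symm := by
        rintro s t ⟨g, σ, h⟩
        refine ⟨g⁻¹, σ.symm, fun i => ?_⟩
        rw [h, Equiv.apply_symm_apply, inv_mul_cancel_left]
      trans := by
        rintro s t u ⟨g, σ, h⟩ ⟨g', σ', h'⟩
        refine ⟨g' * g, σ'.trans σ, fun i => ?_⟩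
        rw [h', h, Equiv.trans_apply, mul_assoc] }

/-- the type of classes -/
def Om : Type := Quotient (tripleSetoid A)

variable {A}

/-- the class of a triple -/
def cls (x y z : A) : Om A := Quotient.mk (tripleSetoid A) ![x, y, z]

theorem cls_eq_iff {x y z x' y' z' : A} : cls x y z = cls x' y' z' ↔
    ∃ (g : A) (σ : Equiv.Perm (Fin 3)), ∀ i, ![x', y', z'] i = g * ![x, y, z] (σ i) :=
  Quotient.eq (r := tripleSetoid A)

theorem cls_surj (ω : Om A) : ∃ x y z, cls x y z = ω := by
  induction ω using Quotient.inductionOn with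
  | h v =>
    refine ⟨v 0, v 1, v 2, ?_⟩
    unfold cls
    congr 1
    funext i
    fin_cases i <;> rfl

theorem cls_mul (g x y z : A) : cls (g * x) (g * y) (g * z) = cls x y z := by
  symm
  rw [cls_eq_iff]
  refine ⟨g, Equiv.refl _, fun i => ?_⟩
  fin_cases i <;> rfl

theorem cls_swap (x y z : A) : cls y x z = cls x y z := by
  rw [cls_eq_iff]
  refine ⟨1, Equiv.swap 0 1, fun i => ?_⟩
  rw [one_mul]
  fin_cases i
  · simp
  · simp
  · have : (Equiv.swap (0 : Fin 3) 1) 2 = 2 := by decide
    simp [this]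

theorem cls_swap' (x y z : A) : cls x z y = cls x y z := by
  rw [cls_eq_iff]
  refine ⟨1, Equiv.swap 1 2, fun i => ?_⟩
  rw [one_mul]
  fin_cases i
  · have : (Equiv.swap (1 : Fin 3) 2) 0 = 0 := by decide
    simp [this]
  · simp
  · simp

variable [Fintype A] [DecidableEq A]

noncomputable instance : DecidableEq (Om A) := Classical.decEq _

noncomputable instance : Fintype (Om A) :=
  Fintype.ofSurjective (fun v : Fin 3 → A => (Quotient.mk (tripleSetoid A) v : Om A))
    Quotient.mk_surjective

theorem fiber_le (x y : A) (ω : Om A) : (univ.filter fun z => cls x y z = ω).card ≤ 6 := by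
  by_cases h : ∃ z₀, cls x y z₀ = ω
  · obtain ⟨z₀, hz₀⟩ := h
    have h1 : (univ.filter fun z => cls x y z = ω) ⊆
        (univ : Finset (Equiv.Perm (Fin 3))).image
          fun σ => x * (![x, y, z₀] (σ 0))⁻¹ * ![x, y, z₀] (σ 2) := by
      intro z hz
      rw [Finset.mem_filter, ← hz₀, eq_comm, cls_eq_iff] at hz
      obtain ⟨-, g, σ, hg⟩ := hz
      rw [Finset.mem_image]
      refine ⟨σ, Finset.mem_univ _, ?_⟩
      have h0 : x = g * ![x, y, z₀] (σ 0) := hg 0
      have h2 : z = g * ![x, y, z₀] (σ 2) := hg 2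
      have h3 : x * (![x, y, z₀] (σ 0))⁻¹ = g := mul_inv_eq_of_eq_mul h0
      rw [h3, ← h2]
    refine (Finset.card_le_card h1).trans (Finset.card_image_le.trans ?_)
    rw [Finset.card_univ, Fintype.card_perm, Fintype.card_fin]
    decide
  · rw [Finset.filter_eq_empty_iff.2]
    · simp
    · intro z _ hz
      exact h ⟨z, hz⟩

theorem fiber_le' (y z : A) (ω : Om A) : (univ.filter fun x => cls x y z = ω).card ≤ 6 := by
  have h : ∀ x, cls x y z = cls y z x := by
    intro x
    rw [cls_swap' y x z, cls_swap x y z]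
  simp_rw [h]
  exact fiber_le y z ω

theorem card_sq_le : Fintype.card A ^ 2 ≤ 6 * Fintype.card (Om A) := by
  have h1 : (univ : Finset (A × A)).card ≤
      6 * ((univ : Finset (A × A)).image fun p => cls 1 p.1 p.2).card := by
    apply Finset.card_le_mul_card_image
    intro ω _
    by_cases h : ∃ p₀ : A × A, cls 1 p₀.1 p₀.2 = ω
    · obtain ⟨p₀, hp₀⟩ := h
      have h1 : (univ.filter fun p : A × A => cls 1 p.1 p.2 = ω) ⊆
          (univ : Finset (Equiv.Perm (Fin 3))).image
            fun σ => ((![1, p₀.1, p₀.2] (σ 0))⁻¹ * ![1, p₀.1, p₀.2] (σ 1),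
              (![1, p₀.1, p₀.2] (σ 0))⁻¹ * ![1, p₀.1, p₀.2] (σ 2)) := by
        intro p hp
        rw [Finset.mem_filter, ← hp₀, eq_comm, cls_eq_iff] at hp
        obtain ⟨-, g, σ, hg⟩ := hp
        rw [Finset.mem_image]
        refine ⟨σ, Finset.mem_univ _, ?_⟩
        have h0 : 1 = g * ![1, p₀.1, p₀.2] (σ 0) := hg 0
        have h1 : p.1 = g * ![1, p₀.1, p₀.2] (σ 1) := hg 1
        have h2 : p.2 = g * ![1, p₀.1, p₀.2] (σ 2) := hg 2
        have h3 : (![1, p₀.1, p₀.2] (σ 0))⁻¹ = g := by
          rw [inv_eq_iff_mul_eq_one, mul_comm]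
          exact h0.symm
        rw [h3, ← h1, ← h2]
      refine (Finset.card_le_card h1).trans (Finset.card_image_le.trans ?_)
      rw [Finset.card_univ, Fintype.card_perm, Fintype.card_fin]
      decide
    · rw [Finset.filter_eq_empty_iff.2]
      · simp
      · intro z _ hz
        exact h ⟨z, hz⟩
  rw [Finset.card_univ, Fintype.card_prod, ← sq] at h1
  exact h1.trans (Nat.mul_le_mul_left 6 (Finset.card_le_univ _))

/-- the classes of the triples `(1, ε, x)` -/
noncomputable def T (ε : A) : Finset (Om A) := univ.image fun x => cls 1 ε x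

theorem card_T (ε : A) : Fintype.card A ≤ 6 * (T ε).card := by
  have := Finset.card_le_mul_card_image (s := (univ : Finset A)) (f := fun x => cls 1 ε x) 6
    (fun ω _ => fiber_le 1 ε ω)
  rwa [Finset.card_univ] at this

/-- The rich sets of classes. -/
def Rich (N : Finset (Om A)) : Prop := ∀ x y w v : A, ∃ u, cls x y u ∈ N ∧ cls u w v ∈ N

open scoped Classical in
theorem rich_card (h : 2 * Fintype.card A ^ 4 * 3 ^ (Fintype.card A / 24) ≤
    4 ^ (Fintype.card A / 24)) :
    2 ^ Fintype.card (Om A) ≤ 2 * (univ.filter fun N : Finset (Om A) => Rich N).card := by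
  set k := Fintype.card A / 24 with hk
  have h1 : ∀ q : A × A × A × A, 4 ^ k * (univ.filter fun N : Finset (Om A) =>
      ∀ u : A, ¬ (cls q.1 q.2.1 u ∈ N ∧ cls u q.2.2.1 q.2.2.2 ∈ N)).card ≤
      3 ^ k * 2 ^ Fintype.card (Om A) := by
    intro q
    have h2 := iterate (fun u => cls q.1 q.2.1 u) (fun u => cls u q.2.2.1 q.2.2.2) k
      (univ : Finset A) (fun ω => fiber_le _ _ ω) (fun ω => fiber_le' _ _ ω)
      (by rw [Finset.card_univ]; omega)
    simpa using h2
  have h2 : (univ.filter fun N : Finset (Om A) => ¬ Rich N) ⊆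
      (univ : Finset (A × A × A × A)).biUnion fun q => univ.filter fun N : Finset (Om A) =>
        ∀ u : A, ¬ (cls q.1 q.2.1 u ∈ N ∧ cls u q.2.2.1 q.2.2.2 ∈ N) := by
    intro N hN
    rw [Finset.mem_filter, Rich] at hN
    push Not at hN
    obtain ⟨-, x, y, w, v, hu⟩ := hN
    rw [Finset.mem_biUnion]
    refine ⟨(x, y, w, v), Finset.mem_univ _, ?_⟩
    rw [Finset.mem_filter]
    exact ⟨Finset.mem_univ _, fun u hu' => hu u hu'.1 hu'.2⟩
  have h3 : 4 ^ k * (univ.filter fun N : Finset (Om A) => ¬ Rich N).card ≤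
      Fintype.card A ^ 4 * (3 ^ k * 2 ^ Fintype.card (Om A)) := by
    calc 4 ^ k * (univ.filter fun N : Finset (Om A) => ¬ Rich N).card
        ≤ 4 ^ k * ∑ q : A × A × A × A, (univ.filter fun N : Finset (Om A) =>
          ∀ u : A, ¬ (cls q.1 q.2.1 u ∈ N ∧ cls u q.2.2.1 q.2.2.2 ∈ N)).card :=
          Nat.mul_le_mul_left _ ((Finset.card_le_card h2).trans Finset.card_biUnion_le)
      _ = ∑ q : A × A × A × A, 4 ^ k * (univ.filter fun N : Finset (Om A) =>
          ∀ u : A, ¬ (cls q.1 q.2.1 u ∈ N ∧ cls u q.2.2.1 q.2.2.2 ∈ N)).card := by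
          rw [Finset.mul_sum]
      _ ≤ ∑ _q : A × A × A × A, 3 ^ k * 2 ^ Fintype.card (Om A) :=
          Finset.sum_le_sum fun q _ => h1 q
      _ = Fintype.card A ^ 4 * (3 ^ k * 2 ^ Fintype.card (Om A)) := by
          rw [Finset.sum_const, Finset.card_univ, smul_eq_mul, Fintype.card_prod,
            Fintype.card_prod, Fintype.card_prod]
          ring
  have h4 : (univ.filter fun N : Finset (Om A) => Rich N).card +
      (univ.filter fun N : Finset (Om A) => ¬ Rich N).card = 2 ^ Fintype.card (Om A) := by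
    rw [Finset.card_filter_add_card_filter_not, Finset.card_univ, Fintype.card_finset]
  have h5 : 2 * (univ.filter fun N : Finset (Om A) => ¬ Rich N).card ≤
      2 ^ Fintype.card (Om A) := by
    have hpos : 0 < 4 ^ k := by positivity
    apply Nat.le_of_mul_le_mul_left _ hpos
    calc 4 ^ k * (2 * (univ.filter fun N : Finset (Om A) => ¬ Rich N).card)
        = 2 * (4 ^ k * (univ.filter fun N : Finset (Om A) => ¬ Rich N).card) := by ring
      _ ≤ 2 * (Fintype.card A ^ 4 * (3 ^ k * 2 ^ Fintype.card (Om A))) :=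
          Nat.mul_le_mul_left 2 h3
      _ = (2 * Fintype.card A ^ 4 * 3 ^ k) * 2 ^ Fintype.card (Om A) := by ring
      _ ≤ 4 ^ k * 2 ^ Fintype.card (Om A) := Nat.mul_le_mul_right _ h
  omega

end Classes

end Pool.Agent.Q114.HF
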