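import Mathlib
import Pool.Agent.Q114.HF.Orb

/-!
# Hyperfields with a given multiplication table, from rich sets of classes
-/

set_option autoImplicit false

namespace Pool.Agent.Q114.HF

open Finset

/-- the nonzero elements -/
abbrev NZ (r : ℕ) : Type := {x : Fin (r + 1) // x ≠ 0}

/-- pairs of a multiplication and a hyperaddition -/
abbrev Str (r : ℕ) : Type :=
  (Fin (r + 1) → Fin (r + 1) → Fin (r + 1)) × (Fin (r + 1) → Fin (r + 1) → Set (Fin (r + 1)))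

/-- the axioms of the multiplication -/
def MulT {r : ℕ} (m : Fin (r + 1) → Fin (r + 1) → Fin (r + 1)) : Prop :=
  (∃ u : Fin (r + 1), u ≠ 0 ∧ ∀ a, m u a = a) ∧
  (∀ a b, m a b = m b a) ∧
  (∀ a b c, m (m a b) c = m a (m b c)) ∧
  (∀ a, m 0 a = 0) ∧
  (∀ a b, a ≠ 0 → b ≠ 0 → m a b ≠ 0) ∧
  (∀ a, a ≠ 0 → ∃ b, ∀ c, m (m a b) c = c)

/-- the axioms of hyperfields -/
def IsHF {r : ℕ} (p : Str r) : Prop :=
  ((∃ u : Fin (r+1), u ≠ 0 ∧ ∀ a, p.1 u a = a) ∧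
    (∀ a b, p.1 a b = p.1 b a) ∧
    (∀ a b c, p.1 (p.1 a b) c = p.1 a (p.1 b c)) ∧
    (∀ a, p.1 0 a = 0) ∧
    (∀ a b, a ≠ 0 → b ≠ 0 → p.1 a b ≠ 0) ∧
    (∀ a, a ≠ 0 → ∃ b, ∀ c, p.1 (p.1 a b) c = c) ∧
    (∀ a b, (p.2 a b).Nonempty) ∧
    (∀ a b, p.2 a b = p.2 b a) ∧
    (∀ a b c, (⋃ x ∈ p.2 a b, p.2 x c) = ⋃ x ∈ p.2 b c, p.2 a x) ∧
    (∀ a, p.2 0 a = {a}) ∧
    (∀ a, ∃! b, (0 : Fin (r+1)) ∈ p.2 a b) ∧
    (∀ a b c d, a ∈ p.2 b c → (0 : Fin (r+1)) ∈ p.2 b d → c ∈ p.2 a d) ∧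
    (∀ a b c, (fun x => p.1 a x) '' p.2 b c = p.2 (p.1 a b) (p.1 a c)))

theorem IsHF.mulT {r : ℕ} {p : Str r} (h : IsHF p) : MulT p.1 :=
  ⟨h.1, h.2.1, h.2.2.1, h.2.2.2.1, h.2.2.2.2.1, h.2.2.2.2.2.1⟩

theorem MulT.mul_zero {r : ℕ} {m : Fin (r + 1) → Fin (r + 1) → Fin (r + 1)} (h : MulT m)
    (a : Fin (r + 1)) : m a 0 = 0 := by
  rw [h.2.1, h.2.2.2.1]

theorem MulT.exists_inv {r : ℕ} {m : Fin (r + 1) → Fin (r + 1) → Fin (r + 1)} (h : MulT m)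
    (a : NZ r) : ∃ b : NZ r, ∀ c, m (m b a) c = c := by
  obtain ⟨u, hu, hu1⟩ := h.1
  obtain ⟨b, hb⟩ := h.2.2.2.2.2 a a.2
  have hb0 : b ≠ 0 := by
    rintro rfl
    apply hu
    rw [← hb u, h.mul_zero, h.2.2.2.1]
  exact ⟨⟨b, hb0⟩, fun c => by rw [h.2.1 b a]; exact hb c⟩

theorem MulT.one_mul {r : ℕ} {m : Fin (r + 1) → Fin (r + 1) → Fin (r + 1)} (h : MulT m)
    (a : Fin (r + 1)) : m h.1.choose a = a := h.1.choose_spec.2 a

/-- the group of the nonzero elements -/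
@[reducible] noncomputable def grp {r : ℕ} {m : Fin (r + 1) → Fin (r + 1) → Fin (r + 1)}
    (h : MulT m) : CommGroup (NZ r) where
  mul a b := ⟨m a b, h.2.2.2.2.1 a b a.2 b.2⟩
  one := ⟨h.1.choose, h.1.choose_spec.1⟩
  inv a := (h.exists_inv a).choose
  mul_assoc a b c := Subtype.ext (h.2.2.1 a b c)
  one_mul a := Subtype.ext (h.one_mul a)
  mul_one a := Subtype.ext ((h.2.1 _ _).trans (h.one_mul a))
  inv_mul_cancel a := by
    apply Subtype.ext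
    have h1 := (h.exists_inv a).choose_spec h.1.choose
    rw [h.2.1, h.one_mul] at h1
    exact h1
  mul_comm a b := Subtype.ext (h.2.1 a b)

section

variable {r : ℕ} [CommGroup (NZ r)]

/-- the hyperaddition given by a set of classes -/
def tab (N : Finset (Om (NZ r))) (x y : Fin (r + 1)) : Set (Fin (r + 1)) :=
  {z | (x = 0 ∧ z = y) ∨ (y = 0 ∧ z = x) ∨ ∃ (hx : x ≠ 0) (hy : y ≠ 0),
    (∃ hz : z ≠ 0, cls (⟨x, hx⟩ : NZ r) ⟨y, hy⟩ ⟨z, hz⟩ ∈ N) ∨ (z = 0 ∧ x = y)}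

variable (N : Finset (Om (NZ r)))

theorem tab_zero_left (y : Fin (r + 1)) : tab N 0 y = {y} := by
  ext z
  rw [Set.mem_singleton_iff]
  constructor
  · rintro (⟨-, h⟩ | ⟨h1, h2⟩ | ⟨h, -⟩)
    · exact h
    · rw [h2, h1]
    · exact absurd rfl h
  · intro h
    exact Or.inl ⟨rfl, h⟩

theorem tab_zero_right (x : Fin (r + 1)) : tab N x 0 = {x} := by
  ext z
  rw [Set.mem_singleton_iff]
  constructor
  · rintro (⟨h1, h2⟩ | ⟨-, h⟩ | ⟨-, h, -⟩)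
    · rw [h2, h1]
    · exact h
    · exact absurd rfl h
  · intro h
    exact Or.inr (Or.inl ⟨rfl, h⟩)

theorem mem_tab (x y : NZ r) (z : Fin (r + 1)) : z ∈ tab N (x : Fin (r + 1)) (y : Fin (r + 1)) ↔
    (∃ w : NZ r, z = w ∧ cls x y w ∈ N) ∨ (z = 0 ∧ x = y) := by
  constructor
  · rintro (⟨h, -⟩ | ⟨h, -⟩ | ⟨hx, hy, ⟨hz, h⟩ | ⟨h1, h2⟩⟩)
    · exact absurd h x.2
    · exact absurd h y.2
    · exact Or.inl ⟨⟨z, hz⟩, rfl, h⟩
    · exact Or.inr ⟨h1, Subtype.ext h2⟩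
  · rintro (⟨w, rfl, h⟩ | ⟨h1, h2⟩)
    · exact Or.inr (Or.inr ⟨x.2, y.2, Or.inl ⟨w.2, h⟩⟩)
    · exact Or.inr (Or.inr ⟨x.2, y.2, Or.inr ⟨h1, congrArg Subtype.val h2⟩⟩)

theorem mem_tab_nz (x y z : NZ r) : (z : Fin (r + 1)) ∈ tab N (x : Fin (r + 1)) (y : Fin (r + 1)) ↔
    cls x y z ∈ N := by
  rw [mem_tab]
  constructor
  · rintro (⟨w, h1, h2⟩ | ⟨h, -⟩)
    · rwa [Subtype.ext h1]
    · exact absurd h z.2
  · intro h
    exact Or.inl ⟨z, rfl, h⟩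

theorem zero_mem_tab (x y : Fin (r + 1)) : (0 : Fin (r + 1)) ∈ tab N x y ↔ x = y := by
  by_cases hx : x = 0
  · subst hx
    rw [tab_zero_left, Set.mem_singleton_iff]
  by_cases hy : y = 0
  · subst hy
    rw [tab_zero_right, Set.mem_singleton_iff, eq_comm]
  rw [mem_tab N ⟨x, hx⟩ ⟨y, hy⟩]
  constructor
  · rintro (⟨w, h, -⟩ | ⟨-, h⟩)
    · exact absurd h.symm w.2
    · exact congrArg Subtype.val h
  · intro h
    exact Or.inr ⟨rfl, Subtype.ext h⟩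

theorem tab_comm (x y : Fin (r + 1)) : tab N x y = tab N y x := by
  by_cases hx : x = 0
  · subst hx
    rw [tab_zero_left, tab_zero_right]
  by_cases hy : y = 0
  · subst hy
    rw [tab_zero_left, tab_zero_right]
  ext z
  by_cases hz : z = 0
  · subst hz
    rw [zero_mem_tab, zero_mem_tab, eq_comm]
  · have h1 := mem_tab_nz N ⟨x, hx⟩ ⟨y, hy⟩ ⟨z, hz⟩
    have h2 := mem_tab_nz N ⟨y, hy⟩ ⟨x, hx⟩ ⟨z, hz⟩
    rw [cls_swap] at h2
    exact h1.trans h2.symm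

theorem tab_injective : Function.Injective (tab (r := r)) := by
  intro N N' h
  ext ω
  obtain ⟨x, y, z, rfl⟩ := cls_surj ω
  rw [← mem_tab_nz, ← mem_tab_nz, h]

theorem hf_tab {m : Fin (r + 1) → Fin (r + 1) → Fin (r + 1)} (hm : MulT m)
    (hmul : ∀ a b : NZ r, ((a * b : NZ r) : Fin (r + 1)) = m a b) (hN : Rich N) :
    IsHF (m, tab N) := by
  have hne : ∀ x y, (tab N x y).Nonempty := by
    intro x y
    by_cases hx : x = 0
    · subst hx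
      rw [tab_zero_left]
      exact Set.singleton_nonempty _
    by_cases hy : y = 0
    · subst hy
      rw [tab_zero_right]
      exact Set.singleton_nonempty _
    obtain ⟨u, hu, -⟩ := hN ⟨x, hx⟩ ⟨y, hy⟩ ⟨x, hx⟩ ⟨y, hy⟩
    exact ⟨u, (mem_tab_nz N ⟨x, hx⟩ ⟨y, hy⟩ u).2 hu⟩
  refine ⟨hm.1, hm.2.1, hm.2.2.1, hm.2.2.2.1, hm.2.2.2.2.1, hm.2.2.2.2.2, hne, tab_comm N, ?_,
    tab_zero_left N, ?_, ?_, ?_⟩
  · -- associativity
    intro a b c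
    by_cases ha : a = 0
    · subst ha
      simp only [tab_zero_left, Set.mem_singleton_iff, Set.iUnion_iUnion_eq_left]
      ext z
      simp
    by_cases hb : b = 0
    · subst hb
      simp only [tab_zero_left, tab_zero_right, Set.mem_singleton_iff, Set.iUnion_iUnion_eq_left]
    by_cases hc : c = 0
    · subst hc
      simp only [tab_zero_right, Set.mem_singleton_iff, Set.iUnion_iUnion_eq_left]
      ext z
      simp
    ext v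
    simp only [Set.mem_iUnion, exists_prop]
    by_cases hv : v = 0
    · subst hv
      simp only [zero_mem_tab]
      constructor
      · rintro ⟨x, hx, rfl⟩
        refine ⟨a, ?_, rfl⟩
        have h1 := (mem_tab_nz N ⟨a, ha⟩ ⟨b, hb⟩ ⟨x, hc⟩).1 hx
        refine (mem_tab_nz N ⟨b, hb⟩ ⟨x, hc⟩ ⟨a, ha⟩).2 ?_
        rwa [cls_swap' (⟨b, hb⟩ : NZ r) ⟨a, ha⟩ ⟨x, hc⟩, cls_swap]
      · rintro ⟨x, hx, rfl⟩
        refine ⟨c, ?_, rfl⟩
        have h1 := (mem_tab_nz N ⟨b, hb⟩ ⟨c, hc⟩ ⟨a, ha⟩).1 hx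
        refine (mem_tab_nz N ⟨a, ha⟩ ⟨b, hb⟩ ⟨c, hc⟩).2 ?_
        rwa [cls_swap' (⟨b, hb⟩ : NZ r) ⟨a, ha⟩ ⟨c, hc⟩, cls_swap] at h1
    · constructor
      · rintro -
        obtain ⟨u, hu1, hu2⟩ := hN ⟨b, hb⟩ ⟨c, hc⟩ ⟨a, ha⟩ ⟨v, hv⟩
        refine ⟨u, (mem_tab_nz N ⟨b, hb⟩ ⟨c, hc⟩ u).2 hu1, ?_⟩
        refine (mem_tab_nz N ⟨a, ha⟩ u ⟨v, hv⟩).2 ?_
        rwa [cls_swap]
      · rintro -
        obtain ⟨u, hu1, hu2⟩ := hN ⟨a, ha⟩ ⟨b, hb⟩ ⟨c, hc⟩ ⟨v, hv⟩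
        exact ⟨u, (mem_tab_nz N ⟨a, ha⟩ ⟨b, hb⟩ u).2 hu1,
          (mem_tab_nz N u ⟨c, hc⟩ ⟨v, hv⟩).2 hu2⟩
  · intro a
    refine ⟨a, (zero_mem_tab N a a).2 rfl, fun b hb => ((zero_mem_tab N a b).1 hb).symm⟩
  · -- reversibility
    intro a b c d h1 h2
    have h3 : b = d := (zero_mem_tab N b d).1 h2
    subst h3
    change a ∈ tab N b c at h1
    change c ∈ tab N a b
    by_cases hb : b = 0
    · subst hb
      rw [tab_zero_left, Set.mem_singleton_iff] at h1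
      rw [h1, tab_zero_right]
      rfl
    by_cases hc : c = 0
    · subst hc
      rw [tab_zero_right, Set.mem_singleton_iff] at h1
      rw [h1, zero_mem_tab]
    by_cases ha : a = 0
    · subst ha
      rw [zero_mem_tab] at h1
      rw [tab_zero_left, h1]
      rfl
    have h4 := (mem_tab_nz N ⟨b, hb⟩ ⟨c, hc⟩ ⟨a, ha⟩).1 h1
    refine (mem_tab_nz N ⟨a, ha⟩ ⟨b, hb⟩ ⟨c, hc⟩).2 ?_
    rwa [cls_swap' (⟨b, hb⟩ : NZ r) ⟨a, ha⟩ ⟨c, hc⟩, cls_swap] at h4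
  · -- distributivity
    intro a b c
    change (fun x => m a x) '' tab N b c = tab N (m a b) (m a c)
    by_cases ha : a = 0
    · subst ha
      rw [hm.2.2.2.1, hm.2.2.2.1, tab_zero_left]
      ext z
      simp only [hm.2.2.2.1, Set.mem_image, Set.mem_singleton_iff]
      constructor
      · rintro ⟨x, -, rfl⟩
        rfl
      · rintro rfl
        obtain ⟨x, hx⟩ := hne b c
        exact ⟨x, hx, rfl⟩
    by_cases hb : b = 0
    · subst hb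
      rw [tab_zero_left, hm.mul_zero, tab_zero_left, Set.image_singleton]
    by_cases hc : c = 0
    · subst hc
      rw [tab_zero_right, hm.mul_zero, tab_zero_right, Set.image_singleton]
    have hab : m a b = ((⟨a, ha⟩ * ⟨b, hb⟩ : NZ r) : Fin (r + 1)) := (hmul ⟨a, ha⟩ ⟨b, hb⟩).symm
    have hac : m a c = ((⟨a, ha⟩ * ⟨c, hc⟩ : NZ r) : Fin (r + 1)) := (hmul ⟨a, ha⟩ ⟨c, hc⟩).symm
    rw [hab, hac]
    ext z
    rw [mem_tab, Set.mem_image]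
    constructor
    · rintro ⟨x, hx, rfl⟩
      rcases (mem_tab N ⟨b, hb⟩ ⟨c, hc⟩ x).1 hx with ⟨w, rfl, hw⟩ | ⟨rfl, h⟩
      · left
        refine ⟨⟨a, ha⟩ * w, (hmul ⟨a, ha⟩ w).symm, ?_⟩
        rwa [cls_mul]
      · right
        refine ⟨hm.mul_zero a, ?_⟩
        rw [h]
    · rintro (⟨w, rfl, hw⟩ | ⟨rfl, h⟩)
      · refine ⟨((⟨a, ha⟩ : NZ r)⁻¹ * w : NZ r), ?_, ?_⟩
        · refine (mem_tab_nz N ⟨b, hb⟩ ⟨c, hc⟩ _).2 ?_
          rw [← cls_mul (⟨a, ha⟩ : NZ r), mul_inv_cancel_left]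
          exact hw
        · have h1 := hmul ⟨a, ha⟩ ((⟨a, ha⟩ : NZ r)⁻¹ * w)
          rw [mul_inv_cancel_left] at h1
          exact h1.symm
      · refine ⟨0, (zero_mem_tab N b c).2 ?_, hm.mul_zero a⟩
        have h1 : (⟨b, hb⟩ : NZ r) = ⟨c, hc⟩ := mul_left_cancel h
        exact congrArg Subtype.val h1

end

end Pool.Agent.Q114.HF
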