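import Mathlib
import Pool.Agent.Q114.HF.Tab

/-!
# Counting the hyperadditions with `1 ⊞ (-1)` everything, for a given multiplication table
-/

set_option autoImplicit false

namespace Pool.Agent.Q114.HF

open Finset

/-- Some of the axioms of a hyperfield, together with `1 ⊞ (-1) = H`. -/
structure W {r : ℕ} (p : Str r) : Prop where
  comm : ∀ a b, p.2 a b = p.2 b a
  zero : ∀ a, p.2 0 a = {a}
  neg : ∀ a, ∃! b, (0 : Fin (r + 1)) ∈ p.2 a b
  rev : ∀ a b c d, a ∈ p.2 b c → (0 : Fin (r + 1)) ∈ p.2 b d → c ∈ p.2 a d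
  dist : ∀ a b c, a ≠ 0 → (fun x => p.1 a x) '' p.2 b c = p.2 (p.1 a b) (p.1 a c)
  full : ∀ u v, (∀ a, p.1 u a = a) → (0 : Fin (r + 1)) ∈ p.2 u v → p.2 u v = Set.univ

theorem perm3 : ∀ σ : Equiv.Perm (Fin 3), (σ 0 = 0 ∧ σ 1 = 1 ∧ σ 2 = 2) ∨
    (σ 0 = 1 ∧ σ 1 = 0 ∧ σ 2 = 2) ∨ (σ 0 = 2 ∧ σ 1 = 0 ∧ σ 2 = 1) ∨
    (σ 0 = 1 ∧ σ 1 = 2 ∧ σ 2 = 0) ∨ (σ 0 = 0 ∧ σ 1 = 2 ∧ σ 2 = 1) ∨
    (σ 0 = 2 ∧ σ 1 = 1 ∧ σ 2 = 0) := by
  decide

section

variable {r : ℕ} [CommGroup (NZ r)] {p : Str r}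

/-- the element `-1` -/
noncomputable def eps (h : W p) : NZ r :=
  ⟨(h.neg ((1 : NZ r) : Fin (r + 1))).choose, by
    intro h0
    have h1 := (h.neg ((1 : NZ r) : Fin (r + 1))).choose_spec.1
    simp only at h1
    rw [h0, h.comm, h.zero, Set.mem_singleton_iff] at h1
    exact (1 : NZ r).2 h1.symm⟩

theorem eps_spec (h : W p) : (0 : Fin (r + 1)) ∈ p.2 ((1 : NZ r) : Fin (r + 1)) (eps h : Fin (r + 1)) :=
  (h.neg ((1 : NZ r) : Fin (r + 1))).choose_spec.1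

variable (hmul : ∀ a b : NZ r, ((a * b : NZ r) : Fin (r + 1)) = p.1 a b)
  (hzero : ∀ a : Fin (r + 1), p.1 a 0 = 0)

include hmul hzero

theorem zero_mem_iff (h : W p) (x : NZ r) (y : Fin (r + 1)) :
    (0 : Fin (r + 1)) ∈ p.2 (x : Fin (r + 1)) y ↔ y = (x * eps h : NZ r) := by
  have h1 : (0 : Fin (r + 1)) ∈ p.2 (x : Fin (r + 1)) ((x * eps h : NZ r) : Fin (r + 1)) := by
    have h2 := h.dist x (1 : NZ r) (eps h) x.2
    rw [← hmul, ← hmul, mul_one] at h2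
    rw [← h2]
    exact ⟨0, eps_spec h, hzero x⟩
  constructor
  · intro h2
    exact (h.neg x).unique h2 h1
  · rintro rfl
    exact h1

theorem eps_mul_eps (h : W p) : eps h * eps h = 1 := by
  have h1 : (0 : Fin (r + 1)) ∈ p.2 (eps h : Fin (r + 1)) ((1 : NZ r) : Fin (r + 1)) := by
    rw [h.comm]
    exact eps_spec h
  have h2 := (zero_mem_iff hmul hzero h (eps h) _).1 h1
  exact (Subtype.ext h2).symm

omit hzero in
/-- the relation `x + y + z ∋ 0` is invariant under scaling -/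
theorem P_mul (h : W p) (g x y z : NZ r)
    (hP : ((eps h * z : NZ r) : Fin (r + 1)) ∈ p.2 (x : Fin (r + 1)) (y : Fin (r + 1))) :
    ((eps h * (g * z) : NZ r) : Fin (r + 1)) ∈
      p.2 ((g * x : NZ r) : Fin (r + 1)) ((g * y : NZ r) : Fin (r + 1)) := by
  rw [hmul g x, hmul g y, ← h.dist g x y g.2]
  refine ⟨_, hP, ?_⟩
  rw [mul_left_comm, hmul g]

theorem P_cycle (h : W p) (x y z : NZ r)
    (hP : ((eps h * z : NZ r) : Fin (r + 1)) ∈ p.2 (x : Fin (r + 1)) (y : Fin (r + 1))) :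
    ((eps h * y : NZ r) : Fin (r + 1)) ∈ p.2 (z : Fin (r + 1)) (x : Fin (r + 1)) := by
  have h0 : (0 : Fin (r + 1)) ∈ p.2 (x : Fin (r + 1)) ((x * eps h : NZ r) : Fin (r + 1)) :=
    (zero_mem_iff hmul hzero h x _).2 rfl
  have h1 := h.rev _ _ _ _ hP h0
  have h2 : (p.1 (eps h) (y : Fin (r + 1))) ∈ (fun t => p.1 (eps h) t) ''
      p.2 ((eps h * z : NZ r) : Fin (r + 1)) ((x * eps h : NZ r) : Fin (r + 1)) := ⟨_, h1, rfl⟩
  rw [h.dist _ _ _ (eps h).2, ← hmul, ← hmul, ← hmul] at h2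
  have h3 : eps h * (eps h * z) = z := by
    rw [← mul_assoc, eps_mul_eps hmul hzero h, one_mul]
  have h4 : eps h * (x * eps h) = x := by
    rw [mul_left_comm, eps_mul_eps hmul hzero h, mul_one]
  rw [h3, h4] at h2
  exact h2

omit hmul hzero in
theorem P_swap (h : W p) (x y z : NZ r)
    (hP : ((eps h * z : NZ r) : Fin (r + 1)) ∈ p.2 (x : Fin (r + 1)) (y : Fin (r + 1))) :
    ((eps h * z : NZ r) : Fin (r + 1)) ∈ p.2 (y : Fin (r + 1)) (x : Fin (r + 1)) := by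
  rw [h.comm]
  exact hP

theorem P_cls (h : W p) (x y z x' y' z' : NZ r) (hc : cls x y z = cls x' y' z')
    (hP : ((eps h * z : NZ r) : Fin (r + 1)) ∈ p.2 (x : Fin (r + 1)) (y : Fin (r + 1))) :
    ((eps h * z' : NZ r) : Fin (r + 1)) ∈ p.2 (x' : Fin (r + 1)) (y' : Fin (r + 1)) := by
  obtain ⟨g, σ, hg⟩ := cls_eq_iff.1 hc
  have g0 : x' = g * ![x, y, z] (σ 0) := hg 0
  have g1 : y' = g * ![x, y, z] (σ 1) := hg 1
  have g2 : z' = g * ![x, y, z] (σ 2) := hg 2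
  rw [g0, g1, g2]
  apply P_mul hmul h
  have c1 := P_cycle hmul hzero h x y z hP
  have c2 := P_cycle hmul hzero h z x y c1
  rcases perm3 σ with ⟨s0, s1, s2⟩ | ⟨s0, s1, s2⟩ | ⟨s0, s1, s2⟩ | ⟨s0, s1, s2⟩ |
    ⟨s0, s1, s2⟩ | ⟨s0, s1, s2⟩ <;> rw [s0, s1, s2]
  · exact hP
  · exact P_swap h x y z hP
  · exact c1
  · exact c2
  · exact P_swap h z x y c1
  · exact P_swap h y z x c2

omit hmul hzero in
/-- the set of classes of a structure -/
noncomputable def clsSet (h : W p) : Finset (Om (NZ r)) :=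
  (Set.toFinite {ω : Om (NZ r) | ∃ x y z : NZ r, cls x y z = ω ∧
    ((eps h * z : NZ r) : Fin (r + 1)) ∈ p.2 (x : Fin (r + 1)) (y : Fin (r + 1))}).toFinset

theorem mem_clsSet (h : W p) (x y z : NZ r) : cls x y z ∈ clsSet h ↔
    ((eps h * z : NZ r) : Fin (r + 1)) ∈ p.2 (x : Fin (r + 1)) (y : Fin (r + 1)) := by
  unfold clsSet
  rw [Set.Finite.mem_toFinset]
  constructor
  · rintro ⟨x', y', z', hc, hP⟩
    exact P_cls hmul hzero h x' y' z' x y z hc hP
  · intro hP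
    exact ⟨x, y, z, rfl, hP⟩

theorem T_subset_clsSet (h : W p) (hone : ∀ a, p.1 ((1 : NZ r) : Fin (r + 1)) a = a) :
    T (eps h) ⊆ clsSet h := by
  intro ω hω
  obtain ⟨x, -, rfl⟩ := Finset.mem_image.1 hω
  rw [mem_clsSet hmul hzero h, h.full _ _ hone (eps_spec h)]
  exact Set.mem_univ _

end

theorem W_ext {r : ℕ} [CommGroup (NZ r)] {m : Fin (r + 1) → Fin (r + 1) → Fin (r + 1)}
    (hmul : ∀ a b : NZ r, ((a * b : NZ r) : Fin (r + 1)) = m a b)
    (hzero : ∀ a : Fin (r + 1), m a 0 = 0)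
    {a b : Fin (r + 1) → Fin (r + 1) → Set (Fin (r + 1))} (ha : W (m, a)) (hb : W (m, b))
    (h1 : eps ha = eps hb) (h2 : clsSet ha = clsSet hb) : a = b := by
  funext x y
  by_cases hx : x = 0
  · subst hx
    exact (ha.zero y).trans (hb.zero y).symm
  by_cases hy : y = 0
  · subst hy
    exact (ha.comm x 0).trans ((ha.zero x).trans ((hb.zero x).symm.trans (hb.comm 0 x)))
  ext z
  by_cases hz : z = 0
  · subst hz
    have e1 := zero_mem_iff (p := (m, a)) hmul hzero ha ⟨x, hx⟩ y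
    have e2 := zero_mem_iff (p := (m, b)) hmul hzero hb ⟨x, hx⟩ y
    rw [h1] at e1
    constructor
    · intro h
      exact e2.2 (e1.1 h)
    · intro h
      exact e1.2 (e2.1 h)
  · have e1 := mem_clsSet (p := (m, a)) hmul hzero ha ⟨x, hx⟩ ⟨y, hy⟩ (eps ha * ⟨z, hz⟩)
    have e2 := mem_clsSet (p := (m, b)) hmul hzero hb ⟨x, hx⟩ ⟨y, hy⟩ (eps hb * ⟨z, hz⟩)
    rw [← mul_assoc, eps_mul_eps (p := (m, a)) hmul hzero ha, one_mul] at e1
    rw [← mul_assoc, eps_mul_eps (p := (m, b)) hmul hzero hb, one_mul, ← h1, ← h2] at e2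
    exact e1.symm.trans e2

theorem card_NZ (r : ℕ) : Fintype.card (NZ r) = r := by
  simp [NZ]

open scoped Classical in
theorem full_card {r : ℕ} [CommGroup (NZ r)] {m : Fin (r + 1) → Fin (r + 1) → Fin (r + 1)}
    (hmul : ∀ a b : NZ r, ((a * b : NZ r) : Fin (r + 1)) = m a b)
    (hzero : ∀ a : Fin (r + 1), m a 0 = 0)
    (hone : ∀ a, m ((1 : NZ r) : Fin (r + 1)) a = a) :
    (univ.filter fun a : Fin (r + 1) → Fin (r + 1) → Set (Fin (r + 1)) => W (m, a)).card *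
      2 ^ (r / 6) ≤ r * 2 ^ Fintype.card (Om (NZ r)) := by
  have h1 : (univ.filter fun a : Fin (r + 1) → Fin (r + 1) → Set (Fin (r + 1)) =>
      W (m, a)).card ≤ ((univ : Finset (NZ r)).sigma fun ε => Finset.Icc (T ε) univ).card := by
    refine Finset.card_le_card_of_injOn
      (fun a => if h : W (m, a) then ⟨eps h, clsSet h⟩ else ⟨1, ∅⟩) ?_ ?_
    · intro a ha
      have h : W (m, a) := (Finset.mem_filter.1 ha).2
      simp only [dif_pos h]
      rw [Finset.mem_coe, Finset.mem_sigma]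
      refine ⟨Finset.mem_univ _, ?_⟩
      rw [Finset.mem_Icc]
      exact ⟨T_subset_clsSet (p := (m, a)) hmul hzero h hone, Finset.subset_univ _⟩
    · intro a ha b hb hab
      have h : W (m, a) := (Finset.mem_filter.1 ha).2
      have h' : W (m, b) := (Finset.mem_filter.1 hb).2
      simp only [dif_pos h, dif_pos h'] at hab
      have e1 : eps h = eps h' := congrArg Sigma.fst hab
      have e2 : clsSet h = clsSet h' := by
        have := congrArg (fun s : (Σ _ : NZ r, Finset (Om (NZ r))) => s.2) hab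
        exact this
      exact W_ext hmul hzero h h' e1 e2
  have h2 : ∀ ε : NZ r, (Finset.Icc (T ε) univ).card * 2 ^ (r / 6) ≤
      2 ^ Fintype.card (Om (NZ r)) := by
    intro ε
    rw [Finset.card_Icc_finset (Finset.subset_univ _), Finset.card_univ, ← pow_add]
    apply Nat.pow_le_pow_right (by norm_num)
    have h3 := card_T ε
    rw [card_NZ] at h3
    have h4 : (T ε).card ≤ Fintype.card (Om (NZ r)) := Finset.card_le_univ _
    omega
  calc (univ.filter fun a : Fin (r + 1) → Fin (r + 1) → Set (Fin (r + 1)) => W (m, a)).card *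
      2 ^ (r / 6) ≤ ((univ : Finset (NZ r)).sigma fun ε => Finset.Icc (T ε) univ).card *
        2 ^ (r / 6) := Nat.mul_le_mul_right _ h1
    _ = ∑ ε : NZ r, (Finset.Icc (T ε) univ).card * 2 ^ (r / 6) := by
        rw [Finset.card_sigma, Finset.sum_mul]
    _ ≤ ∑ _ε : NZ r, 2 ^ Fintype.card (Om (NZ r)) := Finset.sum_le_sum fun ε _ => h2 ε
    _ = r * 2 ^ Fintype.card (Om (NZ r)) := by
        rw [Finset.sum_const, Finset.card_univ, card_NZ, smul_eq_mul]

end Pool.Agent.Q114.HF
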