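import Mathlib
import Pool.Agent.Q114.HF.Full

/-!
# Counting hyperfield structures and isomorphism classes
-/

set_option autoImplicit false

namespace Pool.Agent.Q114.HF

open Finset

theorem grp_mul {r : ℕ} {m : Fin (r + 1) → Fin (r + 1) → Fin (r + 1)} (h : MulT m) :
    letI := grp h
    ∀ a b : NZ r, ((a * b : NZ r) : Fin (r + 1)) = m a b := fun _ _ => rfl

theorem grp_one {r : ℕ} {m : Fin (r + 1) → Fin (r + 1) → Fin (r + 1)} (h : MulT m) :
    letI := grp h
    ∀ a, m ((1 : NZ r) : Fin (r + 1)) a = a := h.one_mul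

open scoped Classical in
theorem hf_card {r : ℕ} [CommGroup (NZ r)] {m : Fin (r + 1) → Fin (r + 1) → Fin (r + 1)}
    (hm : MulT m) (hmul : ∀ a b : NZ r, ((a * b : NZ r) : Fin (r + 1)) = m a b)
    (h : 2 * r ^ 4 * 3 ^ (r / 24) ≤ 4 ^ (r / 24)) :
    2 ^ Fintype.card (Om (NZ r)) ≤
      2 * (univ.filter fun a : Fin (r + 1) → Fin (r + 1) → Set (Fin (r + 1)) =>
        IsHF (m, a)).card := by
  have h1 := rich_card (A := NZ r) (by rwa [card_NZ])
  refine h1.trans (Nat.mul_le_mul_left 2 ?_)
  refine Finset.card_le_card_of_injOn tab ?_ (fun _ _ _ _ h => tab_injective h)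
  intro N hN
  have hN' : Rich N := (Finset.mem_filter.1 hN).2
  rw [Finset.mem_coe, Finset.mem_filter]
  exact ⟨Finset.mem_univ _, hf_tab N hm hmul hN'⟩

open scoped Classical in
theorem compare_table {r : ℕ} {m : Fin (r + 1) → Fin (r + 1) → Fin (r + 1)} (hm : MulT m)
    (h : 2 * r ^ 4 * 3 ^ (r / 24) ≤ 4 ^ (r / 24)) :
    (univ.filter fun a : Fin (r + 1) → Fin (r + 1) → Set (Fin (r + 1)) => W (m, a)).card *
      2 ^ (r / 6) ≤ 2 * r * (univ.filter fun a : Fin (r + 1) → Fin (r + 1) → Set (Fin (r + 1)) =>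
        IsHF (m, a)).card := by
  let _ := grp hm
  have h1 := full_card (m := m) (grp_mul hm) hm.mul_zero (grp_one hm)
  have h2 := hf_card hm (grp_mul hm) h
  calc _ ≤ r * 2 ^ Fintype.card (Om (NZ r)) := h1
    _ ≤ r * (2 * _) := Nat.mul_le_mul_left r h2
    _ = _ := by ring

open scoped Classical in
theorem compare {r : ℕ} (h : 2 * r ^ 4 * 3 ^ (r / 24) ≤ 4 ^ (r / 24)) :
    (univ.filter fun p : Str r => MulT p.1 ∧ W p).card * 2 ^ (r / 6) ≤
      2 * r * (univ.filter fun p : Str r => IsHF p).card := by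
  have e1 : ∀ (P : Str r → Prop) [DecidablePred P], (univ.filter fun p : Str r => P p).card =
      ∑ m : Fin (r + 1) → Fin (r + 1) → Fin (r + 1),
        (univ.filter fun a : Fin (r + 1) → Fin (r + 1) → Set (Fin (r + 1)) => P (m, a)).card := by
    intro P _
    rw [Finset.card_eq_sum_card_fiberwise (f := Prod.fst) (t := univ) (fun _ _ => by simp)]
    refine Finset.sum_congr rfl fun m _ => ?_
    refine Finset.card_bij' (fun p _ => p.2) (fun a _ => (m, a)) ?_ ?_ ?_ ?_
    · intro p hp
      rw [Finset.mem_filter, Finset.mem_filter] at hp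
      rw [Finset.mem_filter]
      refine ⟨Finset.mem_univ _, ?_⟩
      have : (m, p.2) = p := Prod.ext hp.2.symm rfl
      rw [this]
      exact hp.1.2
    · intro a ha
      rw [Finset.mem_filter] at ha
      rw [Finset.mem_filter, Finset.mem_filter]
      exact ⟨⟨Finset.mem_univ _, ha.2⟩, rfl⟩
    · intro p hp
      rw [Finset.mem_filter] at hp
      exact Prod.ext hp.2.symm rfl
    · intro a _
      rfl
  rw [e1, e1, Finset.sum_mul, Finset.mul_sum]
  refine Finset.sum_le_sum fun m _ => ?_
  by_cases hm : MulT m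
  · simp only [hm, true_and]
    convert compare_table hm h
  · simp [hm]

/-- There are few generators. -/
theorem exists_generators (A : Type) [Group A] [Finite A] :
    ∃ S : Finset A, Subgroup.closure (S : Set A) = ⊤ ∧ 2 ^ S.card ≤ Nat.card A := by
  classical
  let 𝒮 : Set ℕ := {n | ∃ S : Finset A, 2 ^ S.card ≤ Nat.card (Subgroup.closure (S : Set A)) ∧
    Nat.card (Subgroup.closure (S : Set A)) = n}
  have hne : 𝒮.Nonempty := ⟨_, ∅, by
    rw [Finset.card_empty, pow_zero]
    exact Nat.card_pos, rfl⟩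
  have hbdd : BddAbove 𝒮 := by
    refine ⟨Nat.card A, ?_⟩
    rintro n ⟨S, -, rfl⟩
    exact Subgroup.card_le_card_group _
  obtain ⟨S, hS, hn⟩ := Nat.sSup_mem hne hbdd
  refine ⟨S, ?_, hS.trans (Subgroup.card_le_card_group _)⟩
  by_contra htop
  obtain ⟨g, hg⟩ : ∃ g, g ∉ Subgroup.closure (S : Set A) := by
    by_contra hall
    push Not at hall
    exact htop ((Subgroup.eq_top_iff' _).2 hall)
  have hgS : g ∉ S := fun h => hg (Subgroup.subset_closure h)
  have hle : Subgroup.closure (S : Set A) ≤ Subgroup.closure ((insert g S : Finset A) : Set A) :=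
    Subgroup.closure_mono (by simp)
  have hg' : g ∈ Subgroup.closure ((insert g S : Finset A) : Set A) :=
    Subgroup.subset_closure (by simp)
  have hdvd := Subgroup.card_dvd_of_le hle
  have hlt : Nat.card (Subgroup.closure (S : Set A)) <
      Nat.card (Subgroup.closure ((insert g S : Finset A) : Set A)) := by
    refine lt_of_le_of_ne (Nat.le_of_dvd Nat.card_pos hdvd) ?_
    intro heq
    have := Subgroup.eq_of_le_of_card_ge hle heq.symm.le
    rw [← this] at hg'
    exact hg hg'
  have hmul : 2 * Nat.card (Subgroup.closure (S : Set A)) ≤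
      Nat.card (Subgroup.closure ((insert g S : Finset A) : Set A)) := by
    obtain ⟨c, hc⟩ := hdvd
    rw [hc] at hlt ⊢
    have h2 : 2 ≤ c := by
      by_contra hc2
      have : c ≤ 1 := by omega
      have h3 := Nat.mul_le_mul_left (Nat.card (Subgroup.closure (S : Set A))) this
      omega
    calc 2 * Nat.card (Subgroup.closure (S : Set A)) ≤ c * _ := Nat.mul_le_mul_right _ h2
      _ = _ := mul_comm _ _
  have hmem : Nat.card (Subgroup.closure ((insert g S : Finset A) : Set A)) ∈ 𝒮 := by
    refine ⟨insert g S, ?_, rfl⟩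
    rw [Finset.card_insert_of_notMem hgS, pow_succ, mul_comm]
    exact (Nat.mul_le_mul_left 2 hS).trans hmul
  have := le_csSup hbdd hmem
  omega

open scoped Classical in
theorem aut_card {r : ℕ} (hr : 1 ≤ r) {m : Fin (r + 1) → Fin (r + 1) → Fin (r + 1)} (hm : MulT m) :
    (univ.filter fun e : Equiv.Perm (Fin (r + 1)) => e 0 = 0 ∧
      ∀ a b, e (m a b) = m (e a) (e b)).card ≤ r ^ Nat.log 2 r := by
  let _ := grp hm
  obtain ⟨S, hS, hcard⟩ := exists_generators (NZ r)
  have hNZ : Nat.card (NZ r) = r := by rw [Nat.card_eq_fintype_card, card_NZ]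
  rw [hNZ] at hcard
  have hlog : S.card ≤ Nat.log 2 r := Nat.le_log_of_pow_le (by norm_num) hcard
  let nz : ∀ e : Equiv.Perm (Fin (r + 1)), e 0 = 0 → NZ r → NZ r := fun e he x =>
    ⟨e x, fun h => x.2 (e.injective (h.trans he.symm))⟩
  have h1 : (univ.filter fun e : Equiv.Perm (Fin (r + 1)) => e 0 = 0 ∧
      ∀ a b, e (m a b) = m (e a) (e b)).card ≤ (univ : Finset (S → NZ r)).card := by
    refine Finset.card_le_card_of_injOn
      (fun e => if h : e 0 = 0 then fun s => nz e h s else fun s => s) (fun _ _ => by simp) ?_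
    intro e he e' he' hee
    obtain ⟨-, he0, he1⟩ := Finset.mem_filter.1 he
    obtain ⟨-, he0', he1'⟩ := Finset.mem_filter.1 he'
    simp only [dif_pos he0, dif_pos he0'] at hee
    let φ : NZ r →* NZ r := MonoidHom.mk' (nz e he0) fun a b => Subtype.ext (he1 a b)
    let φ' : NZ r →* NZ r := MonoidHom.mk' (nz e' he0') fun a b => Subtype.ext (he1' a b)
    have hφ : φ = φ' := by
      apply MonoidHom.eq_of_eqOn_dense hS
      intro s hs
      exact congrFun hee ⟨s, hs⟩
    apply Equiv.ext
    intro x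
    by_cases hx : x = 0
    · rw [hx, he0, he0']
    · exact congrArg Subtype.val (DFunLike.congr_fun hφ ⟨x, hx⟩)
  refine h1.trans ?_
  rw [Finset.card_univ, Fintype.card_fun, card_NZ, Fintype.card_coe]
  exact Nat.pow_le_pow_right hr hlog

end Pool.Agent.Q114.HF
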