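import Mathlib
import Pool.Agent.Q114.HF.Cnt

/-!
# Isomorphism classes of structures
-/

set_option autoImplicit false

namespace Pool.Agent.Q114.HF

open Finset

variable {r : ℕ}

/-- Isomorphism of structures. -/
def Iso (p q : Str r) : Prop :=
  ∃ e : Fin (r+1) ≃ Fin (r+1), ∀ a b, e (p.1 a b) = q.1 (e a) (e b) ∧ e '' p.2 a b = q.2 (e a) (e b)

/-- Isomorphism classes. -/
def Cls (P : Str r → Prop) : Set (Set (Str r)) :=
  {C | ∃ p : Str r, P p ∧ C = {q | P q ∧ Iso p q}}

theorem Iso.refl (p : Str r) : Iso p p := ⟨Equiv.refl _, fun a b => ⟨rfl, by simp⟩⟩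

theorem Iso.symm {p q : Str r} (h : Iso p q) : Iso q p := by
  obtain ⟨e, he⟩ := h
  refine ⟨e.symm, fun a b => ⟨?_, ?_⟩⟩
  · rw [Equiv.symm_apply_eq, (he _ _).1, Equiv.apply_symm_apply, Equiv.apply_symm_apply]
  · have h1 := (he (e.symm a) (e.symm b)).2
    rw [Equiv.apply_symm_apply, Equiv.apply_symm_apply] at h1
    rw [← h1, Set.image_image]
    simp

theorem Iso.trans {p q s : Str r} (h : Iso p q) (h' : Iso q s) : Iso p s := by
  obtain ⟨e, he⟩ := h
  obtain ⟨e', he'⟩ := h'
  refine ⟨e.trans e', fun a b => ⟨?_, ?_⟩⟩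
  · rw [Equiv.trans_apply, (he _ _).1, (he' _ _).1]
    rfl
  · rw [Equiv.coe_trans, Set.image_comp, (he _ _).2, (he' _ _).2]
    rfl

/-- transport of structure -/
def tr (e : Fin (r + 1) ≃ Fin (r + 1)) (p : Str r) : Str r :=
  (fun a b => e (p.1 (e.symm a) (e.symm b)), fun a b => e '' p.2 (e.symm a) (e.symm b))

theorem iso_tr (e : Fin (r + 1) ≃ Fin (r + 1)) (p : Str r) : Iso p (tr e p) :=
  ⟨e, fun a b => by simp [tr]⟩

theorem eq_tr {p q : Str r} {e : Fin (r + 1) ≃ Fin (r + 1)}
    (h : ∀ a b, e (p.1 a b) = q.1 (e a) (e b) ∧ e '' p.2 a b = q.2 (e a) (e b)) : q = tr e p := by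
  refine Prod.ext ?_ ?_
  · funext a b
    change q.1 a b = e (p.1 (e.symm a) (e.symm b))
    rw [(h _ _).1, Equiv.apply_symm_apply, Equiv.apply_symm_apply]
  · funext a b
    change q.2 a b = e '' p.2 (e.symm a) (e.symm b)
    rw [(h _ _).2, Equiv.apply_symm_apply, Equiv.apply_symm_apply]

/-- the class of a structure -/
def Psi (P : Str r → Prop) (p : Str r) : Set (Str r) := {q | P q ∧ Iso p q}

theorem Psi_eq {P : Str r → Prop} {p q : Str r} (h : Iso p q) : Psi P p = Psi P q := by
  ext s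
  exact ⟨fun hs => ⟨hs.1, h.symm.trans hs.2⟩, fun hs => ⟨hs.1, h.trans hs.2⟩⟩

theorem iso_of_Psi_eq {P : Str r → Prop} {p q : Str r} (hq : P q) (h : Psi P p = Psi P q) :
    Iso p q := by
  have : q ∈ Psi P q := ⟨hq, Iso.refl q⟩
  rw [← h] at this
  exact this.2

open scoped Classical in
theorem cls_ncard (P : Str r → Prop) :
    (Cls P).ncard = ((univ.filter fun p : Str r => P p).image (Psi P)).card := by
  rw [← Set.ncard_coe_finset]
  congr 1
  ext C
  simp only [Finset.coe_image, Set.mem_image, Finset.mem_coe, Finset.mem_filter, Finset.mem_univ,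
    true_and]
  constructor
  · rintro ⟨p, hp, rfl⟩
    exact ⟨p, hp, rfl⟩
  · rintro ⟨p, hp, rfl⟩
    exact ⟨p, hp, rfl⟩

open scoped Classical in
/-- A class has at most `(r + 1)!` elements. -/
theorem card_le_cls (P : Str r → Prop) :
    (univ.filter fun p : Str r => P p).card ≤ (r + 1).factorial * (Cls P).ncard := by
  rw [cls_ncard]
  apply Finset.card_le_mul_card_image
  intro C hC
  obtain ⟨p₀, hp₀, rfl⟩ := Finset.mem_image.1 hC
  have h1 : ((univ.filter fun p : Str r => P p).filter fun p => Psi P p = Psi P p₀) ⊆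
      (univ : Finset (Equiv.Perm (Fin (r + 1)))).image fun e => tr e p₀ := by
    intro p hp
    rw [Finset.mem_filter, Finset.mem_filter] at hp
    obtain ⟨e, he⟩ := iso_of_Psi_eq hp.1.2 hp.2.symm
    exact Finset.mem_image.2 ⟨e, Finset.mem_univ _, (eq_tr he).symm⟩
  refine (Finset.card_le_card h1).trans (Finset.card_image_le.trans ?_)
  rw [Finset.card_univ, Fintype.card_perm, Fintype.card_fin]

/-- the extension of a permutation by a fixed point -/
def ext0 (σ : Equiv.Perm (Fin r)) : Equiv.Perm (Fin (r + 1)) :=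
  Equiv.Perm.decomposeFin.symm (0, σ)

theorem ext0_zero (σ : Equiv.Perm (Fin r)) : ext0 σ 0 = 0 := by
  simp [ext0]

theorem ext0_injective : Function.Injective (ext0 (r := r)) := by
  intro σ τ h
  have := Equiv.Perm.decomposeFin.symm.injective h
  exact (Prod.ext_iff.1 this).2

open scoped Classical in
/-- If the automorphism groups have at most `α` elements, a class has at least `r! / α`
elements. -/
theorem image_card_le {β : Type} (F : Finset (Str r)) (Ψ : Str r → β) (α : ℕ)
    (hF : ∀ p ∈ F, ∀ e : Equiv.Perm (Fin (r + 1)), e 0 = 0 → tr e p ∈ F ∧ Ψ (tr e p) = Ψ p)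
    (hα : ∀ p ∈ F, (univ.filter fun e : Equiv.Perm (Fin (r + 1)) => e 0 = 0 ∧
      ∀ a b, e (p.1 a b) = p.1 (e a) (e b)).card ≤ α) :
    (F.image Ψ).card * r.factorial ≤ α * F.card := by
  rw [Finset.card_eq_sum_card_image Ψ F, Finset.mul_sum, ← smul_eq_mul, ← Finset.sum_const]
  refine Finset.sum_le_sum fun C hC => ?_
  obtain ⟨p₀, hp₀, rfl⟩ := Finset.mem_image.1 hC
  have h1 : (univ : Finset (Equiv.Perm (Fin r))).card ≤
      α * ((univ : Finset (Equiv.Perm (Fin r))).image fun σ => tr (ext0 σ) p₀).card := by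
    apply Finset.card_le_mul_card_image
    intro q hq
    obtain ⟨σ₀, -, hσ₀⟩ := Finset.mem_image.1 hq
    refine le_trans ?_ (hα p₀ hp₀)
    refine Finset.card_le_card_of_injOn (fun σ => (ext0 σ).trans (ext0 σ₀).symm) ?_ ?_
    · intro σ hσ
      have hσ' : tr (ext0 σ) p₀ = q := (Finset.mem_filter.1 hσ).2
      rw [Finset.mem_coe, Finset.mem_filter]
      refine ⟨Finset.mem_univ _, ?_, ?_⟩
      · rw [Equiv.trans_apply, ext0_zero, Equiv.symm_apply_eq, ext0_zero]
      · intro a b
        have h2 := congrFun (congrFun (congrArg Prod.fst (hσ'.trans hσ₀.symm)) (ext0 σ a)) (ext0 σ b)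
        simp only [tr, Equiv.symm_apply_apply] at h2
        rw [Equiv.trans_apply, h2, Equiv.symm_apply_apply]
        rfl
    · intro σ _ τ _ h
      apply ext0_injective
      have h2 := congrArg (fun e : Equiv.Perm (Fin (r + 1)) => e.trans (ext0 σ₀)) h
      simpa [Equiv.trans_assoc] using h2
  rw [Finset.card_univ, Fintype.card_perm, Fintype.card_fin] at h1
  refine h1.trans (Nat.mul_le_mul_left α (Finset.card_le_card ?_))
  intro q hq
  obtain ⟨σ, -, rfl⟩ := Finset.mem_image.1 hq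
  rw [Finset.mem_filter]
  exact hF p₀ hp₀ _ (ext0_zero σ)

end Pool.Agent.Q114.HF
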