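import Mathlib
import Pool.Agent.Q114.HF.Iso
import Pool.Agent.Q114.HF.Inf
import Pool.Agent.Q114.HF.Fin

/-!
# Quotient hyperfields
-/

set_option autoImplicit false

namespace Pool.Agent.Q114.HF

open Finset

variable {r : ℕ}

/-- `p` is the quotient of `K` by `G`. -/
def QD (K : Type) [Field K] (G : Subgroup Kˣ) (f : K → Fin (r + 1)) (p : Str r) : Prop :=
  Function.Surjective f ∧ f 0 = 0 ∧
  (∀ x y : K, f x = f y ↔ ∃ g ∈ G, y = x * (g : K)) ∧
  (∀ x y : K, f (x * y) = p.1 (f x) (f y)) ∧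
  (∀ x y : K, p.2 (f x) (f y) = {z | ∃ g ∈ G, ∃ h ∈ G, z = f (x * (g : K) + y * (h : K))})

/-- Quotient hyperfields. -/
def IsQ (p : Str r) : Prop :=
  ∃ (K : Type) (_ : Field K), ∃ G : Subgroup Kˣ, ∃ f : K → Fin (r + 1), QD K G f p

/-- Quotient hyperfields `K / G` with `G - G = K`. -/
def IsQF (p : Str r) : Prop :=
  ∃ (K : Type) (_ : Field K), ∃ G : Subgroup Kˣ, ∃ f : K → Fin (r + 1), QD K G f p ∧
    ∀ z : K, ∃ g ∈ G, ∃ h ∈ G, z = (g : K) - (h : K)

section

variable {K : Type} [Field K] {G : Subgroup Kˣ} {f : K → Fin (r + 1)} {p : Str r}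

theorem QD.eq_zero (h : QD K G f p) {x : K} (hx : f x = 0) : x = 0 := by
  rw [← h.2.1] at hx
  obtain ⟨g, -, hg⟩ := (h.2.2.1 x 0).1 hx
  rcases mul_eq_zero.1 hg.symm with h1 | h1
  · exact h1
  · exact absurd h1 g.ne_zero

theorem QD.ne_zero (h : QD K G f p) {x : K} (hx : x ≠ 0) : f x ≠ 0 := fun h1 => hx (h.eq_zero h1)

theorem QD.map_mul_mem (h : QD K G f p) (x : K) {g : Kˣ} (hg : g ∈ G) : f (x * (g : K)) = f x :=
  ((h.2.2.1 x _).2 ⟨g, hg, rfl⟩).symm

theorem QD.mulT (h : QD K G f p) : MulT p.1 := by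
  have hs := h.1
  have hm := h.2.2.2.1
  refine ⟨⟨f 1, h.ne_zero one_ne_zero, ?_⟩, ?_, ?_, ?_, ?_, ?_⟩
  · intro a
    obtain ⟨x, rfl⟩ := hs a
    rw [← hm, one_mul]
  · intro a b
    obtain ⟨x, rfl⟩ := hs a
    obtain ⟨y, rfl⟩ := hs b
    rw [← hm, ← hm, mul_comm]
  · intro a b c
    obtain ⟨x, rfl⟩ := hs a
    obtain ⟨y, rfl⟩ := hs b
    obtain ⟨z, rfl⟩ := hs c
    rw [← hm, ← hm, ← hm, ← hm, mul_assoc]
  · intro a
    obtain ⟨x, rfl⟩ := hs a
    rw [← h.2.1, ← hm, zero_mul]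
  · intro a b ha hb
    obtain ⟨x, rfl⟩ := hs a
    obtain ⟨y, rfl⟩ := hs b
    rw [← hm]
    apply h.ne_zero
    apply mul_ne_zero
    · rintro rfl
      exact ha h.2.1
    · rintro rfl
      exact hb h.2.1
  · intro a ha
    obtain ⟨x, rfl⟩ := hs a
    have hx : x ≠ 0 := by
      rintro rfl
      exact ha h.2.1
    refine ⟨f x⁻¹, fun c => ?_⟩
    obtain ⟨y, rfl⟩ := hs c
    rw [← hm, mul_inv_cancel₀ hx, ← hm, one_mul]

theorem QD.neg_unique (h : QD K G f p) {x : K} {b : Fin (r + 1)}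
    (hb : (0 : Fin (r + 1)) ∈ p.2 (f x) b) : b = f (-x) := by
  obtain ⟨y, rfl⟩ := h.1 b
  rw [h.2.2.2.2] at hb
  obtain ⟨g, hg, g', hg', h0⟩ := hb
  have h1 := h.eq_zero h0.symm
  rw [← h.map_mul_mem y hg', ← h.map_mul_mem (-x) hg]
  congr 1
  linear_combination h1

theorem QD.neg_mem (h : QD K G f p) (x : K) : (0 : Fin (r + 1)) ∈ p.2 (f x) (f (-x)) := by
  rw [h.2.2.2.2]
  refine ⟨1, G.one_mem, 1, G.one_mem, ?_⟩
  rw [Units.val_one, mul_one, mul_one, add_neg_cancel, h.2.1]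

theorem QD.W (h : QD K G f p) (hfull : ∀ z : K, ∃ g ∈ G, ∃ h ∈ G, z = (g : K) - (h : K)) :
    W p where
  comm a b := by
    obtain ⟨x, rfl⟩ := h.1 a
    obtain ⟨y, rfl⟩ := h.1 b
    rw [h.2.2.2.2, h.2.2.2.2]
    ext z
    constructor
    · rintro ⟨g, hg, g', hg', rfl⟩
      exact ⟨g', hg', g, hg, congrArg f (add_comm _ _)⟩
    · rintro ⟨g, hg, g', hg', rfl⟩
      exact ⟨g', hg', g, hg, congrArg f (add_comm _ _)⟩
  zero a := by
    obtain ⟨x, rfl⟩ := h.1 a
    rw [← h.2.1, h.2.2.2.2]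
    ext z
    rw [Set.mem_singleton_iff]
    constructor
    · rintro ⟨g, hg, g', hg', rfl⟩
      rw [zero_mul, zero_add, h.map_mul_mem x hg']
    · rintro rfl
      exact ⟨1, G.one_mem, 1, G.one_mem, by simp⟩
  neg a := by
    obtain ⟨x, rfl⟩ := h.1 a
    exact ⟨f (-x), h.neg_mem x, fun b hb => h.neg_unique hb⟩
  rev a b c d h1 h2 := by
    obtain ⟨x, rfl⟩ := h.1 b
    obtain ⟨y, rfl⟩ := h.1 c
    obtain rfl := h.neg_unique h2
    rw [h.2.2.2.2] at h1
    obtain ⟨g, hg, g', hg', rfl⟩ := h1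
    rw [h.2.2.2.2]
    refine ⟨g'⁻¹, G.inv_mem hg', g * g'⁻¹, G.mul_mem hg (G.inv_mem hg'), ?_⟩
    congr 1
    rw [Units.val_mul, Units.val_inv_eq_inv_val]
    have := g'.ne_zero
    field_simp
    ring
  dist a b c ha := by
    obtain ⟨x, rfl⟩ := h.1 a
    obtain ⟨y, rfl⟩ := h.1 b
    obtain ⟨z, rfl⟩ := h.1 c
    rw [← h.2.2.2.1, ← h.2.2.2.1, h.2.2.2.2, h.2.2.2.2]
    ext w
    constructor
    · rintro ⟨_, ⟨g, hg, g', hg', rfl⟩, rfl⟩
      refine ⟨g, hg, g', hg', ?_⟩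
      change p.1 (f x) (f _) = _
      rw [← h.2.2.2.1]
      congr 1
      ring
    · rintro ⟨g, hg, g', hg', rfl⟩
      refine ⟨_, ⟨g, hg, g', hg', rfl⟩, ?_⟩
      change p.1 (f x) (f _) = _
      rw [← h.2.2.2.1]
      congr 1
      ring
  full u v hu h0 := by
    have hu1 : u = f 1 := by
      obtain ⟨x, rfl⟩ := h.1 u
      rw [← hu (f 1), ← h.2.2.2.1, mul_one]
    subst hu1
    obtain rfl := h.neg_unique h0
    rw [Set.eq_univ_iff_forall]
    intro w
    obtain ⟨z, rfl⟩ := h.1 w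
    obtain ⟨g, hg, g', hg', rfl⟩ := hfull z
    rw [h.2.2.2.2]
    refine ⟨g, hg, g', hg', ?_⟩
    congr 1
    ring

theorem QD.tr (h : QD K G f p) (e : Equiv.Perm (Fin (r + 1))) (he : e 0 = 0) :
    QD K G (fun x => e (f x)) (tr e p) := by
  refine ⟨e.surjective.comp h.1, by change e (f 0) = 0; rw [h.2.1, he], fun x y => ?_, fun x y => ?_, fun x y => ?_⟩
  · rw [e.injective.eq_iff, h.2.2.1]
  · simp only [HF.tr, Equiv.symm_apply_apply, h.2.2.2.1]
  · simp only [HF.tr, Equiv.symm_apply_apply, h.2.2.2.2]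
    ext z
    constructor
    · rintro ⟨_, ⟨g, hg, g', hg', rfl⟩, rfl⟩
      exact ⟨g, hg, g', hg', rfl⟩
    · rintro ⟨g, hg, g', hg', rfl⟩
      exact ⟨_, ⟨g, hg, g', hg', rfl⟩, rfl⟩

theorem QD.card [Finite K] (h : QD K G f p) : Nat.card K = 1 + r * Nat.card G := by
  classical
  have : Fintype K := Fintype.ofFinite K
  have : Fintype G := Fintype.ofFinite G
  rw [Nat.card_eq_fintype_card, Nat.card_eq_fintype_card, ← Finset.card_univ,
    Finset.card_eq_sum_card_fiberwise (f := f) (t := univ) (fun _ _ => by simp),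
    Fin.sum_univ_succ]
  congr 1
  · rw [Finset.card_eq_one]
    refine ⟨0, ?_⟩
    ext x
    rw [Finset.mem_filter, Finset.mem_singleton]
    constructor
    · rintro ⟨-, hx⟩
      exact h.eq_zero hx
    · rintro rfl
      exact ⟨Finset.mem_univ _, h.2.1⟩
  · have h1 : ∀ c : Fin r, (univ.filter fun x => f x = c.succ).card = Fintype.card G := by
      intro c
      obtain ⟨x₀, hx₀⟩ := h.1 c.succ
      have hx0 : x₀ ≠ 0 := by
        rintro rfl
        rw [h.2.1] at hx₀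
        exact Fin.succ_ne_zero c hx₀.symm
      rw [← Finset.card_univ]
      symm
      refine Finset.card_bij (fun g _ => x₀ * ((g : Kˣ) : K)) ?_ ?_ ?_
      · intro g _
        rw [Finset.mem_filter]
        exact ⟨Finset.mem_univ _, by rw [h.map_mul_mem x₀ g.2, hx₀]⟩
      · intro g _ g' _ hgg
        exact Subtype.ext (Units.ext (mul_left_cancel₀ hx0 hgg))
      · intro x hx
        rw [Finset.mem_filter] at hx
        obtain ⟨g, hg, hg'⟩ := (h.2.2.1 x₀ x).1 (hx₀.trans hx.2.symm)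
        exact ⟨⟨g, hg⟩, Finset.mem_univ _, hg'.symm⟩
    rw [Finset.sum_congr rfl fun c _ => h1 c, Finset.sum_const, Finset.card_univ,
      Fintype.card_fin, smul_eq_mul]

theorem QD.full_of_infinite [Infinite K] (h : QD K G f p) (z : K) :
    ∃ g ∈ G, ∃ h ∈ G, z = (g : K) - (h : K) := infinite_diff G f h.2.2.1 z

theorem QD.full_of_large [Finite K] (hr : 1 ≤ r) (h : QD K G f p) (hK : 16 * r ^ 4 < Nat.card K)
    (z : K) : ∃ g ∈ G, ∃ h ∈ G, z = (g : K) - (h : K) := by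
  apply finite_diff
  have h1 := h.card
  have hq : 2 ≤ Nat.card K := Finite.one_lt_card
  have hg : Nat.card K ≤ 2 * r * Nat.card G := by
    rw [mul_assoc]
    omega
  have h2 : Nat.card K ^ 4 ≤ (2 * r * Nat.card G) ^ 4 := Nat.pow_le_pow_left hg 4
  have hpos : 0 < 16 * r ^ 4 := by positivity
  apply Nat.le_of_mul_le_mul_left _ hpos
  calc 16 * r ^ 4 * Nat.card K ^ 3 ≤ Nat.card K * Nat.card K ^ 3 :=
        Nat.mul_le_mul_right _ hK.le
    _ = Nat.card K ^ 4 := by ring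
    _ ≤ (2 * r * Nat.card G) ^ 4 := h2
    _ = 16 * r ^ 4 * Nat.card G ^ 4 := by ring

end

theorem mem_iff_pow {K : Type} [Field K] [Finite K] (G : Subgroup Kˣ) (x : Kˣ) :
    x ∈ G ↔ x ^ Nat.card G = 1 := by
  classical
  have : Fintype K := Fintype.ofFinite K
  have : Fintype G := Fintype.ofFinite G
  constructor
  · intro hx
    have h1 : (⟨x, hx⟩ : G) ^ Nat.card G = 1 := pow_card_eq_one'
    exact congrArg Subtype.val h1
  · intro hx
    have h1 : (univ.filter fun y : Kˣ => y ∈ G) ⊆ univ.filter fun y : Kˣ => y ^ Nat.card G = 1 := by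
      intro y hy
      rw [Finset.mem_filter] at hy ⊢
      refine ⟨Finset.mem_univ _, ?_⟩
      have h1 : (⟨y, hy.2⟩ : G) ^ Nat.card G = 1 := pow_card_eq_one'
      exact congrArg Subtype.val h1
    have h2 : (univ.filter fun y : Kˣ => y ^ Nat.card G = 1).card ≤ Nat.card G :=
      IsCyclic.card_pow_eq_one_le Nat.card_pos
    have h3 : (univ.filter fun y : Kˣ => y ∈ G).card = Nat.card G := by
      rw [Nat.card_eq_fintype_card, Fintype.card_subtype]
    have h4 := Finset.eq_of_subset_of_card_le h1 (by rw [h3]; exact h2)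
    have h5 : x ∈ univ.filter fun y : Kˣ => y ^ Nat.card G = 1 :=
      Finset.mem_filter.2 ⟨Finset.mem_univ _, hx⟩
    rw [← h4] at h5
    exact (Finset.mem_filter.1 h5).2

theorem iso_of_card_eq (hr : 1 ≤ r) {K K' : Type} [Field K] [Field K'] [Finite K] [Finite K']
    {G : Subgroup Kˣ} {G' : Subgroup K'ˣ} {f : K → Fin (r + 1)} {f' : K' → Fin (r + 1)}
    {p p' : Str r} (h : QD K G f p) (h' : QD K' G' f' p') (hc : Nat.card K = Nat.card K') :
    Iso p p' := by
  classical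
  have : Fintype K := Fintype.ofFinite K
  have : Fintype K' := Fintype.ofFinite K'
  have hGG : Nat.card G = Nat.card G' := by
    have h1 := h.card
    have h2 := h'.card
    rw [hc, h2] at h1
    have h3 : r * Nat.card G' = r * Nat.card G := by omega
    exact (Nat.eq_of_mul_eq_mul_left (by omega) h3).symm
  obtain ⟨φ⟩ : Nonempty (K ≃+* K') := by
    rw [Nat.card_eq_fintype_card, Nat.card_eq_fintype_card] at hc
    exact ⟨FiniteField.ringEquivOfCardEq hc⟩
  have hmem : ∀ x : Kˣ, Units.map (φ : K →* K') x ∈ G' ↔ x ∈ G := by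
    intro x
    rw [mem_iff_pow, mem_iff_pow, ← hGG, ← map_pow]
    constructor
    · intro hx
      apply Units.map_injective (f := (φ : K →* K')) φ.injective
      rw [hx, map_one]
    · intro hx
      rw [hx, map_one]
  have hmem' : ∀ y : K'ˣ, y ∈ G' → ∃ x ∈ G, ((x : K) : K) = φ.symm (y : K') := by
    intro y hy
    refine ⟨Units.map (φ.symm : K' →* K) y, ?_, rfl⟩
    rw [← hmem]
    convert hy
    ext
    simp
  have hff : ∀ x y : K, f x = f y ↔ f' (φ x) = f' (φ y) := by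
    intro x y
    rw [h.2.2.1, h'.2.2.1]
    constructor
    · rintro ⟨g, hg, rfl⟩
      exact ⟨Units.map (φ : K →* K') g, (hmem g).2 hg, by simp⟩
    · rintro ⟨g, hg, hgy⟩
      obtain ⟨g', hg', hgg⟩ := hmem' g hg
      refine ⟨g', hg', ?_⟩
      apply φ.injective
      rw [map_mul, hgg, RingEquiv.apply_symm_apply, hgy]
  let s : Fin (r + 1) → K := Function.surjInv h.1
  have hs : ∀ c, f (s c) = c := Function.surjInv_eq h.1
  have hinj : Function.Injective fun c => f' (φ (s c)) := by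
    intro c c' hcc
    have := (hff _ _).2 hcc
    rwa [hs, hs] at this
  let e : Fin (r + 1) ≃ Fin (r + 1) := Equiv.ofBijective _ (Finite.injective_iff_bijective.1 hinj)
  have he : ∀ x, e (f x) = f' (φ x) := by
    intro x
    change f' (φ (s (f x))) = f' (φ x)
    rw [← hff, hs]
  refine ⟨e, fun a b => ?_⟩
  obtain ⟨x, rfl⟩ := h.1 a
  obtain ⟨y, rfl⟩ := h.1 b
  constructor
  · rw [← h.2.2.2.1, he, he, he, ← h'.2.2.2.1, map_mul]
  · rw [h.2.2.2.2, he, he, h'.2.2.2.2]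
    ext z
    constructor
    · rintro ⟨_, ⟨g, hg, g', hg', rfl⟩, rfl⟩
      refine ⟨Units.map (φ : K →* K') g, (hmem g).2 hg, Units.map (φ : K →* K') g',
        (hmem g').2 hg', ?_⟩
      rw [he]
      simp
    · rintro ⟨g, hg, g', hg', rfl⟩
      obtain ⟨l, hl, hl'⟩ := hmem' g hg
      obtain ⟨l', hm, hm'⟩ := hmem' g' hg'
      refine ⟨_, ⟨l, hl, l', hm, rfl⟩, ?_⟩
      rw [he, map_add, map_mul, map_mul, hl', hm', RingEquiv.apply_symm_apply,
        RingEquiv.apply_symm_apply]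

end Pool.Agent.Q114.HF
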