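import Mathlib
import Pool.Agent.Q114.HF.Quo

/-!
# Comparison of the numbers of classes
-/

set_option autoImplicit false

namespace Pool.Agent.Q114.HF

open Finset

variable {r : ℕ}

/-- Quotient hyperfields of a finite field with `n` elements. -/
def IsQS (n : ℕ) (p : Str r) : Prop :=
  ∃ (K : Type) (_ : Field K), ∃ G : Subgroup Kˣ, ∃ f : K → Fin (r + 1), QD K G f p ∧
    Finite K ∧ Nat.card K = n

/-- Quotient hyperfields of small finite fields. -/
def IsSm (p : Str r) : Prop := ∃ n ∈ Finset.range (16 * r ^ 4 + 1), IsQS n p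

theorem IsQ.cases (hr : 1 ≤ r) {p : Str r} (h : IsQ p) : IsQF p ∨ IsSm p := by
  obtain ⟨K, hK, G, f, h⟩ := h
  rcases finite_or_infinite K with hfin | hinf
  · by_cases hc : 16 * r ^ 4 < Nat.card K
    · exact Or.inl ⟨K, hK, G, f, h, h.full_of_large hr hc⟩
    · exact Or.inr ⟨Nat.card K, Finset.mem_range.2 (by omega), K, hK, G, f, h, hfin, rfl⟩
  · exact Or.inl ⟨K, hK, G, f, h, h.full_of_infinite⟩

open scoped Classical in
theorem small_card (hr : 1 ≤ r) {β : Type} (F : Finset (Str r)) (Ψ : Str r → β)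
    (hΨ : ∀ p q : Str r, Iso p q → Ψ p = Ψ q)
    (hF : ∀ p ∈ F, IsSm p) :
    (F.image Ψ).card ≤ 16 * r ^ 4 + 1 := by
  rcases F.eq_empty_or_nonempty with rfl | ⟨p₀, hp₀⟩
  · simp
  let c : ℕ → Str r := fun n => if h : ∃ p : Str r, IsQS n p then h.choose else p₀
  have h1 : F.image Ψ ⊆ (Finset.range (16 * r ^ 4 + 1)).image fun n => Ψ (c n) := by
    intro C hC
    obtain ⟨p, hp, rfl⟩ := Finset.mem_image.1 hC
    obtain ⟨n, hn, hpn⟩ := hF p hp
    refine Finset.mem_image.2 ⟨n, hn, ?_⟩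
    apply hΨ
    have hex : ∃ p : Str r, IsQS n p := ⟨p, hpn⟩
    have hc : c n = hex.choose := dif_pos hex
    obtain ⟨K, hK, G, f, h, hfin, hcard⟩ := hpn
    obtain ⟨K', hK', G', f', h', hfin', hcard'⟩ := hex.choose_spec
    rw [hc]
    exact iso_of_card_eq hr h' h (hcard'.trans hcard.symm)
  refine (Finset.card_le_card h1).trans (Finset.card_image_le.trans ?_)
  rw [Finset.card_range]

theorem IsQF.spec {p : Str r} (h : IsQF p) : MulT p.1 ∧ W p := by
  obtain ⟨K, hK, G, f, h, hfull⟩ := h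
  exact ⟨h.mulT, h.W hfull⟩

theorem IsQF.tr {p : Str r} (h : IsQF p) (e : Equiv.Perm (Fin (r + 1))) (he : e 0 = 0) :
    IsQF (HF.tr e p) := by
  obtain ⟨K, hK, G, f, h, hfull⟩ := h
  exact ⟨K, hK, G, _, h.tr e he, hfull⟩

open scoped Classical in
theorem full_bound (hr : 1 ≤ r) (h : 2 * r ^ 4 * 3 ^ (r / 24) ≤ 4 ^ (r / 24)) :
    ((univ.filter fun p : Str r => IsQF p).image (Psi IsQ)).card * 2 ^ (r / 6) ≤
      2 * r * (r + 1) * r ^ Nat.log 2 r * (Cls (IsHF (r := r))).ncard := by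
  set α := r ^ Nat.log 2 r with hα
  set F := univ.filter fun p : Str r => IsQF p with hF
  have h1 : (F.image (Psi IsQ)).card * r.factorial ≤ α * F.card := by
    apply image_card_le
    · intro p hp e he
      rw [hF, Finset.mem_filter] at hp ⊢
      exact ⟨⟨Finset.mem_univ _, hp.2.tr e he⟩, (Psi_eq (iso_tr e p)).symm⟩
    · intro p hp
      rw [hF, Finset.mem_filter] at hp
      convert aut_card hr hp.2.spec.1
  have h2 : F.card ≤ (univ.filter fun p : Str r => MulT p.1 ∧ W p).card := by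
    apply Finset.card_le_card
    intro p hp
    rw [hF, Finset.mem_filter] at hp
    exact Finset.mem_filter.2 ⟨Finset.mem_univ _, hp.2.spec⟩
  have h3 := compare h
  have h4 := card_le_cls (IsHF (r := r))
  have hpos : 0 < r.factorial := Nat.factorial_pos r
  apply Nat.le_of_mul_le_mul_left _ hpos
  calc r.factorial * ((F.image (Psi IsQ)).card * 2 ^ (r / 6))
      = (F.image (Psi IsQ)).card * r.factorial * 2 ^ (r / 6) := by ring
    _ ≤ α * F.card * 2 ^ (r / 6) := Nat.mul_le_mul_right _ h1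
    _ ≤ α * (univ.filter fun p : Str r => MulT p.1 ∧ W p).card * 2 ^ (r / 6) :=
        Nat.mul_le_mul_right _ (Nat.mul_le_mul_left _ h2)
    _ = α * ((univ.filter fun p : Str r => MulT p.1 ∧ W p).card * 2 ^ (r / 6)) := by ring
    _ ≤ α * (2 * r * (univ.filter fun p : Str r => IsHF p).card) := Nat.mul_le_mul_left _ h3
    _ ≤ α * (2 * r * ((r + 1).factorial * (Cls (IsHF (r := r))).ncard)) :=
        Nat.mul_le_mul_left _ (Nat.mul_le_mul_left _ h4)
    _ = r.factorial * (2 * r * (r + 1) * α * (Cls (IsHF (r := r))).ncard) := by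
        rw [Nat.factorial_succ]
        ring

theorem cls_bound (hr : 1 ≤ r) : ∃ a : ℕ,
    (Cls (IsQ (r := r))).ncard ≤ a + (16 * r ^ 4 + 1) ∧
    (2 * r ^ 4 * 3 ^ (r / 24) ≤ 4 ^ (r / 24) → a * 2 ^ (r / 6) ≤
      2 * r * (r + 1) * r ^ Nat.log 2 r * (Cls (IsHF (r := r))).ncard) := by
  classical
  refine ⟨((univ.filter fun p : Str r => IsQF p).image (Psi IsQ)).card, ?_, fun h => ?_⟩
  · rw [cls_ncard]
    let F : Finset (Str r) := univ.filter fun p : Str r => IsSm p
    have h1 : (univ.filter fun p : Str r => IsQ p).image (Psi IsQ) ⊆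
        (univ.filter fun p : Str r => IsQF p).image (Psi IsQ) ∪ F.image (Psi IsQ) := by
      intro C hC
      obtain ⟨p, hp, rfl⟩ := Finset.mem_image.1 hC
      rw [Finset.mem_union]
      rcases (Finset.mem_filter.1 hp).2.cases hr with h1 | h1
      · exact Or.inl (Finset.mem_image.2 ⟨p, Finset.mem_filter.2 ⟨Finset.mem_univ _, h1⟩, rfl⟩)
      · exact Or.inr (Finset.mem_image.2 ⟨p, Finset.mem_filter.2 ⟨Finset.mem_univ _, h1⟩, rfl⟩)
    refine (Finset.card_le_card h1).trans ((Finset.card_union_le _ _).trans ?_)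
    apply Nat.add_le_add_left
    exact small_card hr F _ (fun p q hpq => Psi_eq hpq) fun p hp => (Finset.mem_filter.1 hp).2
  · convert full_bound hr h

/-- The cyclic group table. -/
theorem exists_mulT (hr : 1 ≤ r) : ∃ m : Fin (r + 1) → Fin (r + 1) → Fin (r + 1), MulT m := by
  classical
  obtain ⟨s, rfl⟩ : ∃ s, r = s + 1 := ⟨r - 1, by omega⟩
  let A := Multiplicative (Fin (s + 1))
  let e : WithZero A ≃ Fin (s + 1 + 1) := by
    refine (Equiv.optionCongr (Equiv.refl _)).trans (finSuccEquiv (s + 1)).symm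
  have he0 : e 0 = 0 := rfl
  have hne : ∀ a, a ≠ 0 → e.symm a ≠ 0 := by
    intro a ha h
    apply ha
    rw [← he0, ← h, Equiv.apply_symm_apply]
  refine ⟨fun a b => e (e.symm a * e.symm b), ⟨e 1, ?_, ?_⟩, ?_, ?_, ?_, ?_, ?_⟩
  · rw [← he0, e.injective.ne_iff]
    exact one_ne_zero
  · intro a
    simp
  · intro a b
    exact congrArg e (mul_comm _ _)
  · intro a b c
    simp [mul_assoc]
  · intro a
    rw [← he0]
    simp
  · intro a b ha hb
    rw [← he0, e.injective.ne_iff]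
    exact mul_ne_zero (hne a ha) (hne b hb)
  · intro a ha
    refine ⟨e (e.symm a)⁻¹, fun c => ?_⟩
    simp [hne a ha]

theorem hf_lower (hr : 1 ≤ r) (h : 2 * r ^ 4 * 3 ^ (r / 24) ≤ 4 ^ (r / 24)) :
    2 ^ (r ^ 2 / 6) ≤ 2 * ((r + 1).factorial * (Cls (IsHF (r := r))).ncard) := by
  classical
  obtain ⟨m, hm⟩ := exists_mulT hr
  let _ := grp hm
  have h1 := hf_card hm (grp_mul hm) h
  have h2 := card_sq_le (A := NZ r)
  rw [card_NZ] at h2
  have h3 : 2 ^ (r ^ 2 / 6) ≤ 2 ^ Fintype.card (Om (NZ r)) :=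
    Nat.pow_le_pow_right (by norm_num) (by omega)
  refine h3.trans (h1.trans (Nat.mul_le_mul_left 2 (le_trans ?_ (card_le_cls _))))
  refine Finset.card_le_card_of_injOn (fun a => (m, a)) ?_ ?_
  · intro a ha
    rw [Finset.mem_coe, Finset.mem_filter] at ha ⊢
    exact ⟨Finset.mem_univ _, ha.2⟩
  · intro a _ b _ hab
    exact (Prod.ext_iff.1 hab).2

end Pool.Agent.Q114.HF
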