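import Mathlib
import Pool.Agent.Q114.HF.Bnd

/-!
# The limit
-/

set_option autoImplicit false

namespace Pool.Agent.Q114.HF

theorem cond_ok {r : ℕ} (hr : 4096 ≤ r) : 2 * r ^ 4 * 3 ^ (r / 24) ≤ 4 ^ (r / 24) := by
  have h1 : ∀ k : ℕ, 150 ≤ k → 2 * (24 * (k + 1)) ^ 4 * 3 ^ k ≤ 4 ^ k := by
    intro k hk
    induction k, hk using Nat.le_induction with
    | base => norm_num
    | succ k hk ih =>
      have h2 : 3 * (k + 1 + 1) ^ 4 ≤ 4 * (k + 1) ^ 4 := by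
        obtain ⟨j, rfl⟩ : ∃ j, k = 150 + j := ⟨k - 150, by omega⟩
        nlinarith [sq_nonneg j, Nat.zero_le (j ^ 3), Nat.zero_le (j ^ 4), Nat.zero_le j,
          Nat.zero_le (j ^ 2)]
      calc 2 * (24 * (k + 1 + 1)) ^ 4 * 3 ^ (k + 1)
          = 2 * 24 ^ 4 * 3 ^ k * (3 * (k + 1 + 1) ^ 4) := by ring
        _ ≤ 2 * 24 ^ 4 * 3 ^ k * (4 * (k + 1) ^ 4) := Nat.mul_le_mul_left _ h2
        _ = 4 * (2 * (24 * (k + 1)) ^ 4 * 3 ^ k) := by ring
        _ ≤ 4 * 4 ^ k := Nat.mul_le_mul_left _ ih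
        _ = 4 ^ (k + 1) := by ring
  have h2 := h1 (r / 24) (by omega)
  refine le_trans (Nat.mul_le_mul_right _ (Nat.mul_le_mul_left _ (Nat.pow_le_pow_left ?_ 4))) h2
  omega

theorem log_ok {r : ℕ} (hr : 4096 ≤ r) : 6 * (1 + (Nat.log 2 r + 1) * (Nat.log 2 r + 3)) ≤ r ∧
    12 * (Nat.log 2 r + 1) ≤ r := by
  have h0 : 12 ≤ Nat.log 2 r := by
    have : Nat.log 2 (2 ^ 12) ≤ Nat.log 2 r := Nat.log_mono_right (by norm_num; exact hr)
    rwa [Nat.log_pow (by norm_num)] at this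
  have h1 : ∀ L : ℕ, 12 ≤ L → 6 * (1 + (L + 1) * (L + 3)) ≤ 2 ^ L := by
    intro L hL
    induction L, hL using Nat.le_induction with
    | base => norm_num
    | succ L hL ih =>
      rw [pow_succ]
      nlinarith
  have h2 : 2 ^ Nat.log 2 r ≤ r := Nat.pow_log_le_self 2 (by omega)
  have h3 := (h1 _ h0).trans h2
  refine ⟨h3, ?_⟩
  nlinarith

theorem claim_one {r : ℕ} (hr : 4096 ≤ r) :
    2 * r * (r + 1) * r ^ Nat.log 2 r * r ≤ 2 ^ (r / 6) := by
  set L := Nat.log 2 r with hL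
  have h1 : r + 1 ≤ 2 ^ (L + 1) := Nat.lt_pow_succ_log_self (by norm_num) r
  have h1' : r ≤ 2 ^ (L + 1) := by omega
  calc 2 * r * (r + 1) * r ^ L * r
      ≤ 2 * 2 ^ (L + 1) * 2 ^ (L + 1) * (2 ^ (L + 1)) ^ L * 2 ^ (L + 1) := by gcongr
    _ = 2 ^ (1 + (L + 1) * (L + 3)) := by
        rw [← pow_mul, ← pow_succ', ← pow_add, ← pow_add, ← pow_add]
        congr 1
        ring
    _ ≤ 2 ^ (r / 6) := by
        apply Nat.pow_le_pow_right (by norm_num)
        have := (log_ok hr).1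
        rw [← hL] at this
        omega

theorem claim_two {r : ℕ} (hr : 4096 ≤ r) :
    2 * ((r + 1).factorial * ((16 * r ^ 4 + 1) * r)) ≤ 2 ^ (r ^ 2 / 6) := by
  set L := Nat.log 2 r with hL
  have h1 : r + 1 ≤ 2 ^ (L + 1) := Nat.lt_pow_succ_log_self (by norm_num) r
  have h1' : r ≤ 2 ^ (L + 1) := by omega
  have h2 : (r + 1).factorial ≤ (2 ^ (L + 1)) ^ (r + 1) :=
    (Nat.factorial_le_pow (r + 1)).trans (Nat.pow_le_pow_left h1 _)
  have h3 : 16 * r ^ 4 + 1 ≤ 2 ^ 5 * r ^ 4 := by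
    have : 1 ≤ r ^ 4 := Nat.one_le_pow _ _ (by omega)
    omega
  calc 2 * ((r + 1).factorial * ((16 * r ^ 4 + 1) * r))
      ≤ 2 * ((2 ^ (L + 1)) ^ (r + 1) * ((2 ^ 5 * (2 ^ (L + 1)) ^ 4) * 2 ^ (L + 1))) := by
        refine Nat.mul_le_mul_left 2 (Nat.mul_le_mul h2 (Nat.mul_le_mul (h3.trans ?_) h1'))
        exact Nat.mul_le_mul_left _ (Nat.pow_le_pow_left h1' 4)
    _ = 2 ^ (6 + (L + 1) * (r + 6)) := by
        rw [← pow_mul, ← pow_mul, ← pow_add, ← pow_add, ← pow_add, ← pow_succ']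
        congr 1
        ring
    _ ≤ 2 ^ (r ^ 2 / 6) := by
        apply Nat.pow_le_pow_right (by norm_num)
        rw [Nat.le_div_iff_mul_le (by norm_num)]
        have h4 := (log_ok hr).2
        rw [← hL] at h4
        nlinarith

theorem ratio_bound {r : ℕ} (hr : 4096 ≤ r) :
    r * (Cls (IsQ (r := r))).ncard ≤ 2 * (Cls (IsHF (r := r))).ncard := by
  have hr1 : 1 ≤ r := by omega
  obtain ⟨a, ha, hb⟩ := cls_bound hr1
  have h1 := hb (cond_ok hr)
  have h2 := hf_lower hr1 (cond_ok hr)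
  set H := (Cls (IsHF (r := r))).ncard with hH
  have h3 : a * r ≤ H := by
    have hpos : 0 < 2 ^ (r / 6) := by positivity
    apply Nat.le_of_mul_le_mul_left _ hpos
    calc 2 ^ (r / 6) * (a * r) = a * 2 ^ (r / 6) * r := by ring
      _ ≤ 2 * r * (r + 1) * r ^ Nat.log 2 r * H * r := Nat.mul_le_mul_right _ h1
      _ = 2 * r * (r + 1) * r ^ Nat.log 2 r * r * H := by ring
      _ ≤ 2 ^ (r / 6) * H := Nat.mul_le_mul_right _ (claim_one hr)
  have h4 : (16 * r ^ 4 + 1) * r ≤ H := by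
    have h5 := (claim_two hr).trans h2
    have h6 := Nat.le_of_mul_le_mul_left h5 (by norm_num)
    exact Nat.le_of_mul_le_mul_left h6 (Nat.factorial_pos _)
  calc r * (Cls (IsQ (r := r))).ncard ≤ r * (a + (16 * r ^ 4 + 1)) := Nat.mul_le_mul_left _ ha
    _ = a * r + (16 * r ^ 4 + 1) * r := by ring
    _ ≤ H + H := Nat.add_le_add h3 h4
    _ = 2 * H := by ring

theorem tendsto_ratio : Filter.Tendsto
    (fun r : ℕ => (((Cls (IsQ (r := r))).ncard : ℕ) : ℝ) / (((Cls (IsHF (r := r))).ncard : ℕ) : ℝ))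
    Filter.atTop (nhds 0) := by
  have h1 : Filter.Tendsto (fun r : ℕ => (2 : ℝ) / (r : ℝ)) Filter.atTop (nhds 0) :=
    tendsto_const_div_atTop_nhds_zero_nat 2
  refine squeeze_zero' (Filter.Eventually.of_forall fun r => by positivity) ?_ h1
  filter_upwards [Filter.eventually_ge_atTop 4096] with r hr
  have h2 := ratio_bound hr
  have h3 : (r : ℝ) * ((Cls (IsQ (r := r))).ncard : ℝ) ≤ 2 * ((Cls (IsHF (r := r))).ncard : ℝ) := by
    exact_mod_cast h2
  have hrpos : (0 : ℝ) < r := by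
    have : 0 < r := by omega
    exact_mod_cast this
  rcases Nat.eq_zero_or_pos (Cls (IsHF (r := r))).ncard with h0 | h0
  · rw [h0, Nat.cast_zero, div_zero]
    positivity
  · have hH : (0 : ℝ) < ((Cls (IsHF (r := r))).ncard : ℝ) := by exact_mod_cast h0
    rw [div_le_div_iff₀ hH hrpos]
    linarith

end Pool.Agent.Q114.HF
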